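import Pool.Agent.Work.MP_7b0bad_ag.AnT.Stmts

set_option autoImplicit false

/-!
# Block AnT, item AAff (helper90): the decomposition group acts by affine maps on the labels
-/

open Polynomial Pointwise

namespace MP7b0bad.AnT

open SnT (cc xx rp)

section
variable {k : Type} [Field k] {L : Type} [Field L] [Algebra (RatFunc k) L] {A : ValuationSubring L}

theorem AAff_dec (σ : L ≃ₐ[RatFunc k] L) (h1 : σ • A = A) (y : L) : σ y ∈ A ↔ y ∈ A := by
  constructor
  · intro h2
    rw [← h1] at h2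
    obtain ⟨z, hz, hz'⟩ := h2
    have : z = y := σ.injective hz'
    rw [← this]; exact hz
  · intro h2
    rw [← h1]
    exact ⟨y, h2, rfl⟩

theorem AAff_non (σ : L ≃ₐ[RatFunc k] L) (h : σ • A = A) (y : L) :
    σ y ∈ A.nonunits ↔ y ∈ A.nonunits := by
  rw [ValuationSubring.mem_nonunits_iff_or, ValuationSubring.mem_nonunits_iff_or, ← map_inv₀,
    AAff_dec σ h, map_eq_zero_iff _ σ.injective]

theorem AAff_bg {p e : ℕ} (σ : L ≃ₐ[RatFunc k] L) (h : σ • A = A) (y : L)
    (hy : y ∈ Bg k p e A) : σ y ∈ Bg k p e A := by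
  refine ⟨?_, fun h1 => hy.2 ((AAff_dec σ h y).1 h1)⟩
  have h1 := mem_rootSet.1 hy.1
  refine mem_rootSet.2 ⟨h1.1, ?_⟩
  have h2 : aeval (σ y) (FA k p e) = σ (aeval y (FA k p e)) := by
    exact aeval_algHom_apply (σ : L →ₐ[RatFunc k] L) y (FA k p e)
  rw [h2, h1.2, map_zero]

/-- sums and products with elements of the maximal ideal -/
theorem AAff_sub {a b : L} (ha : a ∈ A.nonunits) (hb : b ∈ A.nonunits) : a - b ∈ A.nonunits := by
  rw [ValuationSubring.mem_nonunits_iff] at *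
  exact lt_of_le_of_lt (Valuation.map_sub _ _ _) (max_lt ha hb)

theorem AAff_add {a b : L} (ha : a ∈ A.nonunits) (hb : b ∈ A.nonunits) : a + b ∈ A.nonunits := by
  rw [ValuationSubring.mem_nonunits_iff] at *
  exact lt_of_le_of_lt (Valuation.map_add _ _ _) (max_lt ha hb)

theorem AAff_mul {a b : L} (ha : a ∈ A.nonunits) (hb : b ∈ A) : a * b ∈ A.nonunits := by
  rw [ValuationSubring.mem_nonunits_iff] at *
  rw [map_mul]
  have h1 : A.valuation b ≤ 1 := (A.valuation_le_one_iff b).2 hb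
  calc A.valuation a * A.valuation b ≤ A.valuation a * 1 := by gcongr
    _ = A.valuation a := mul_one _
    _ < 1 := ha

/-- congruent natural constants are equal modulo `p` -/
theorem AAff_nat {p : ℕ} [Fact p.Prime] [CharP L p] {m n : ℕ}
    (h : (m : L) - (n : L) ∈ A.nonunits) : (m : ZMod p) = (n : ZMod p) := by
  by_contra hne
  have h1 : (m : ZMod p) - (n : ZMod p) ≠ 0 := sub_ne_zero.2 hne
  obtain ⟨u, hu⟩ : ∃ u : ZMod p, ((m : ZMod p) - (n : ZMod p)) * u = 1 :=
    ⟨((m : ZMod p) - (n : ZMod p))⁻¹, mul_inv_cancel₀ h1⟩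
  have h2 := congrArg (ZMod.castHom (dvd_refl p) L) hu
  rw [map_mul, map_sub, map_natCast, map_natCast, map_one] at h2
  have h3 : (ZMod.castHom (dvd_refl p) L) u ∈ A := by
    have h4 : u = ((u.val : ℕ) : ZMod p) := (ZMod.natCast_zmod_val u).symm
    rw [h4, map_natCast]
    exact natCast_mem A _
  have h5 := AAff_mul h h3
  rw [h2, ValuationSubring.mem_nonunits_iff, map_one] at h5
  exact lt_irrefl _ h5

end

theorem prf_AAff (hDif : ADif) : AAff := by
  intro p _ k _ _ e he hpe L _ _ A hA d lab hL σ hσ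
  have : CharP L p := charP_of_injective_algebraMap (algebraMap (RatFunc k) L).injective p
  obtain ⟨y0, hy0, y1, hy1, hne, hd⟩ := hL.dif
  have hd0 : d ≠ 0 := by rw [hd]; exact sub_ne_zero.2 hne
  have hσd : σ d = σ y1 - σ y0 := by rw [hd, map_sub]
  have hσd0 : σ d ≠ 0 := fun h => hd0 ((map_eq_zero_iff _ σ.injective).1 h)
  obtain ⟨θ, hθ, hθ'⟩ := (hDif p k e he hpe L A hA y0 hy0 y1 hy1 hne).2 (σ y0)
    (AAff_bg σ hσ y0 hy0) (σ y1) (AAff_bg σ hσ y1 hy1) (fun h => hne (σ.injective h))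
  rw [← hσd, ← hd] at hθ'
  refine ⟨θ, hθ, hθ', ?_⟩
  intro y hy y' hy'
  set n := (lab y - lab y').val with hn
  set n' := (lab (σ y) - lab (σ y')).val with hn'
  have h1 := (AAff_non σ hσ _).2 (hL.res y hy y' hy')
  rw [map_sub, map_div₀, map_sub, map_natCast] at h1
  have h2 := hL.res (σ y) (AAff_bg σ hσ y hy) (σ y') (AAff_bg σ hσ y' hy')
  have hwA : σ d / d ∈ A := by
    have h3 := A.add_mem _ _ (A.nonunits_subset hθ') (natCast_mem A θ.val)
    rwa [sub_add_cancel] at h3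
  have h4 : (σ y - σ y') / σ d * (σ d / d) = (σ y - σ y') / d := by
    field_simp
  have h5 := AAff_mul h1 hwA
  have h6 := AAff_mul hθ' (natCast_mem A n)
  have h7 : (((n * θ.val : ℕ) : L)) - ((n' : ℕ) : L) ∈ A.nonunits := by
    have h8 := AAff_sub h2 (AAff_add h5 h6)
    have h9 : (σ y - σ y') / d - ((n' : ℕ) : L) -
        (((σ y - σ y') / σ d - (n : L)) * (σ d / d) + (σ d / d - ((θ.val : ℕ) : L)) * (n : L)) =
        (((n * θ.val : ℕ) : L)) - ((n' : ℕ) : L) := by
      push_cast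
      rw [sub_mul, h4]
      ring
    rwa [h9] at h8
  have h10 := AAff_nat (p := p) h7
  rw [Nat.cast_mul, hn, hn', ZMod.natCast_zmod_val, ZMod.natCast_zmod_val,
    ZMod.natCast_zmod_val] at h10
  rw [← h10, mul_comm]

end MP7b0bad.AnT
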