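import Pool.Agent.Work.MP_7b0bad_ag.AnT.Defs

set_option autoImplicit false

/-!
# Block AnT: Abhyankar's covers `y ^ (p + e) - x y ^ e + 1 = 0`, statements of the items

`v = A.valuation`, `m = A.nonunits`, `D = A.decompositionSubgroup (RatFunc k)`; `σ ∈ D` is
`σ • A = A`.  `u ≡ w` means `u - w ∈ A.nonunits`.
Generic tools in the repository: `SnT/Main.lean` (`Main_dec`, `Main_non`, `Main_cc`),
`SnT/SOrb.lean` (`SOrb_val`, `SOrb_inj`), `SnT/SCharE.lean` (`prf_SCharE`, `SCharE_lt`,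
`SCharE_one`, `SCharE_w`), `Bd` (`F3_X : AtInfty A → 1 < v x`, `F3_C` : constants have value 1,
`prf_F6 prf_F3 : F6` : every element of `A` is congruent to a constant, `F8_dec`).
-/

open Polynomial Pointwise

namespace MP7b0bad.AnT

open SnT (cc xx rp)

/-- [AIrr] As `SnT/SIrr.lean`.  `F' = e Y^(e-1) (Y^p - x) ≠ 0`. -/
def AIrr : Prop := ∀ (p : ℕ) [Fact p.Prime] (k : Type) [Field k] [CharP k p] (e : ℕ), 0 < e →
  ¬ p ∣ e → (FA k p e).Monic ∧ (FA k p e).natDegree = p + e ∧ Irreducible (FA k p e) ∧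
    (FA k p e).Separable

/-- [AUnr] Finite places are unramified, as `SnT/SUnr.lean`.  The roots are in `A` (`F` is monic
with coefficients in `A`).  `σ` in the inertia group: `σ y ≡ y`.  If `y ≠ y'` are roots with
`y ≡ y'` then `F` and `F'` have a common root modulo `m` (e.g. `F(Y) = (Y - y) G(Y)`, `G(y') = 0`,
so `F'(y) = G(y) ≡ G(y') = 0`), but `F'(y) = e y^(e-1) (y^p - x)` and
`y^e (y^p - x) = -1` for a root `y`, so `y F'(y) = -e` is a unit.  So `σ` fixes all the roots. -/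
def AUnr : Prop := ∀ (p : ℕ) [Fact p.Prime] (k : Type) [Field k] [CharP k p] (e : ℕ), 0 < e →
  ¬ p ∣ e → ∀ (L : Type) [Field L] [Algebra (RatFunc k) L]
  [IsSplittingField (RatFunc k) L (FA k p e)] (A : ValuationSubring L), (∀ c : k, cc k L c ∈ A) →
  xx k L ∈ A → ValuationSubring.inertiaSubgroup (RatFunc k) A = ⊥

/-- [AVal] Values of the roots, from `root_eq`: `v(y^(p+e) + 1) = v(y)^(p+e)` if `v(y) > 1`, and it
is `1` if `v(y) < 1`. -/
def AVal : Prop := ∀ (p : ℕ) [Fact p.Prime] (k : Type) [Field k] [CharP k p] (e : ℕ), 0 < e →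
  ∀ (L : Type) [Field L] [Algebra (RatFunc k) L] (A : ValuationSubring L), AtInfty (k := k) A →
  (∀ y ∈ Bg k p e A, A.valuation y ^ p = A.valuation (xx k L)) ∧
  ∀ y ∈ Sm k p e A, y ≠ 0 ∧ A.valuation y ^ e * A.valuation (xx k L) = 1

/-- [ACount] (hIrr, hVal) A root in `A` is in `m` (otherwise `x = y^p + y^(-e) ∈ A`).  `b` big
roots, `s` small roots: `b + s = p + e` (separable, split), the product of all roots is `± 1`
(constant coefficient `1`), so `v(big)^b v(small)^s = 1`; raise to the power `p e`: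
`v(x)^(e b) = v(x)^(p s)`, so `e b = p s`, hence `b = p`, `s = e`.  (As `SnT/SCount.lean`.) -/
def ACount : Prop := ∀ (p : ℕ) [Fact p.Prime] (k : Type) [Field k] [CharP k p] (e : ℕ), 0 < e →
  ¬ p ∣ e → ∀ (L : Type) [Field L] [Algebra (RatFunc k) L]
  [IsSplittingField (RatFunc k) L (FA k p e)] (A : ValuationSubring L), AtInfty (k := k) A →
  (Bg k p e A).ncard = p ∧ (Sm k p e A).ncard = e ∧
  ∀ y ∈ (FA k p e).rootSet L, y ∈ A → y ∈ A.nonunits

/-- [ATame] Small roots are separated by residues.  `u = y'/y`: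
`u^e - 1 = y^(p+e) u^e (u^p - 1)` and `u^p - 1 = (u - 1)^p`; if `u ≠ 1`, `u ≡ 1`, the left side is
`(u - 1) (1 + u + ... + u^(e-1))` of value `v(u - 1)` (as `e ≠ 0` in `k`), the right side has
a smaller value. -/
def ATame : Prop := ∀ (p : ℕ) [Fact p.Prime] (k : Type) [Field k] [CharP k p] (e : ℕ), 0 < e →
  ¬ p ∣ e → ∀ (L : Type) [Field L] [Algebra (RatFunc k) L] (A : ValuationSubring L),
  AtInfty (k := k) A → ∀ y ∈ Sm k p e A, ∀ y' ∈ Sm k p e A, y' / y - 1 ∈ A.nonunits → y' = y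

/-- [ADif] (hVal) Differences of big roots.  `x = y^p + y^(-e)`, so `d = y' - y` satisfies
`d^p = y^(-e) - y'^(-e)`, which is in `m`, so `v(d) < 1 < v(y)`; with `u = d / y ∈ m`,
`1 - (1 + u)^(-e) = e u (1 + m)`, so `d^(p-1) = e y^(-e-1) (1 + m)`.  Hence
`v(d)^(p-1) v(y)^(e+1) = 1` and (with `v(y)^p = v(x)`) the second claim.  For two differences
`d = y' - y`, `d' = z' - z`, `w = d'/d`: `w^(p-1) ≡ 1`, because `(z/y)^(e+1) ≡ 1`
(`z/y = 1 + (z - y)/y`).  In characteristic `p`, `X^(p-1) - 1 = ∏_{a ≠ 0} (X - a)`, so some factor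
`w - a` has value `< 1`. -/
def ADif : Prop := ∀ (p : ℕ) [Fact p.Prime] (k : Type) [Field k] [CharP k p] (e : ℕ), 0 < e →
  ¬ p ∣ e → ∀ (L : Type) [Field L] [Algebra (RatFunc k) L] (A : ValuationSubring L),
  AtInfty (k := k) A → ∀ y ∈ Bg k p e A, ∀ y' ∈ Bg k p e A, y' ≠ y →
  A.valuation (y' - y) ^ (p * (p - 1)) * A.valuation (xx k L) ^ (e + 1) = 1 ∧
  ∀ z ∈ Bg k p e A, ∀ z' ∈ Bg k p e A, z' ≠ z →
    ∃ a : ZMod p, a ≠ 0 ∧ (z' - z) / (y' - y) - ((a.val : ℕ) : L) ∈ A.nonunits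

/-- [ALab] (hCount, hDif) Labels.  Fix `y₀ ≠ y₁` big (`p ≥ 2`), `d = y₁ - y₀`, `lab y` = the `a`
with `(y - y₀) / d ≡ a` (`a = 0` for `y = y₀`, `ADif` otherwise).  Then
`(y - y') / d ≡ lab y - lab y'`, and by `ADif` this is `≢ 0` if `y ≠ y'`: `lab` is injective on the
`p` big roots, hence surjective.  (`L` has characteristic `p`; `ℕ → L`, `a.val` is compatible with
the ring operations of `ZMod p`: `ZMod.castHom`, `ZMod.natCast_zmod_val`; different constants are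
not congruent.) -/
def ALab : Prop := ∀ (p : ℕ) [Fact p.Prime] (k : Type) [Field k] [CharP k p] (e : ℕ), 0 < e →
  ¬ p ∣ e → ∀ (L : Type) [Field L] [Algebra (RatFunc k) L]
  [IsSplittingField (RatFunc k) L (FA k p e)] (A : ValuationSubring L), AtInfty (k := k) A →
  ∃ (d : L) (lab : L → ZMod p), Lb k p e A d lab

/-- [AOrb] (hVal, hCount) The decomposition group is transitive on the big roots and on the small
roots.  As `SnT/SOrb.lean`: for the orbit `O` of `y` under `D`, `γ = ∏_{z ∈ O} z` is fixed by `D`;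
`v(γ)^p = v(x)^|O|` (big) or `v(γ)^e = v(x)^(-|O|)` (small); by `SOrb_val`, `v(γ) = v(x)^j`, so
`p ∣ |O|` or `e ∣ |O|`. -/
def AOrb : Prop := ∀ (p : ℕ) [Fact p.Prime] (k : Type) [Field k] [IsAlgClosed k] [CharP k p]
  (e : ℕ), 0 < e → ¬ p ∣ e → ∀ (L : Type) [Field L] [Algebra (RatFunc k) L]
  [IsSplittingField (RatFunc k) L (FA k p e)] [FiniteDimensional (RatFunc k) L]
  [IsGalois (RatFunc k) L] (A : ValuationSubring L), AtInfty (k := k) A →
  (∀ y ∈ Bg k p e A, ∀ y' ∈ Bg k p e A, ∃ σ : L ≃ₐ[RatFunc k] L, σ • A = A ∧ σ y = y') ∧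
  ∀ y ∈ Sm k p e A, ∀ y' ∈ Sm k p e A, ∃ σ : L ≃ₐ[RatFunc k] L, σ • A = A ∧ σ y = y'

/-- [AAff] (hDif) The decomposition group acts by affine maps on the labels.  `σ` permutes the big
roots; `σ d` is a difference of big roots, so `σ d / d ≡ θ ≠ 0` by `ADif` (with `d`, `σ d`).  Apply
`σ` to `Lb.res`: `(σ y - σ y') / σ d ≡ lab y - lab y'` (`σ` preserves `m` and the constants), so
`(σ y - σ y') / d ≡ θ (lab y - lab y')`, and it is `≡ lab (σ y) - lab (σ y')`. -/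
def AAff : Prop := ∀ (p : ℕ) [Fact p.Prime] (k : Type) [Field k] [CharP k p] (e : ℕ), 0 < e →
  ¬ p ∣ e → ∀ (L : Type) [Field L] [Algebra (RatFunc k) L] (A : ValuationSubring L),
  AtInfty (k := k) A → ∀ (d : L) (lab : L → ZMod p), Lb k p e A d lab →
  ∀ σ : L ≃ₐ[RatFunc k] L, σ • A = A → ∃ θ : ZMod p, θ ≠ 0 ∧
    σ d / d - ((θ.val : ℕ) : L) ∈ A.nonunits ∧
    ∀ y ∈ Bg k p e A, ∀ y' ∈ Bg k p e A, lab (σ y) - lab (σ y') = θ * (lab y - lab y')

/-- [AKer] (hVal, hTame, hAff) For small `y'`: `y'/y` has value `1`, `y'/y ≡ c` (`F6`), so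
`σ y'/σ y ≡ c`, `σ y'/y' ≡ σ y / y ≡ 1` and `σ y' = y'` by `ATame`.  In `AAff` the residue of
`σ d / d` is `1`, so `θ = 1`. -/
def AKer : Prop := ∀ (p : ℕ) [Fact p.Prime] (k : Type) [Field k] [IsAlgClosed k] [CharP k p]
  (e : ℕ), 0 < e → ¬ p ∣ e → ∀ (L : Type) [Field L] [Algebra (RatFunc k) L]
  [FiniteDimensional (RatFunc k) L] (A : ValuationSubring L), AtInfty (k := k) A →
  ∀ (d : L) (lab : L → ZMod p), Lb k p e A d lab → ∀ σ : L ≃ₐ[RatFunc k] L, σ • A = A →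
  (∃ y ∈ Sm k p e A, σ y / y - 1 ∈ A.nonunits) → σ d / d - 1 ∈ A.nonunits →
  (∀ y ∈ Sm k p e A, σ y = y) ∧
    ∀ y ∈ Bg k p e A, ∀ y' ∈ Bg k p e A, lab (σ y) - lab (σ y') = lab y - lab y'

/-- [ABez] `v(a)^m = v(b)^n`; the value group is torsion free, so one may assume `m`, `n` coprime;
`u n + w m = 1` (integers), `s = a^u b^w`, `i = n`, `j = m`. -/
def ABez : Prop := ∀ (L : Type) [Field L] (A : ValuationSubring L) (a b : L) (m n : ℕ), a ≠ 0 →
  b ≠ 0 → 0 < m → 0 < n → A.valuation a ^ m = A.valuation b ^ n →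
  ∃ (s : L) (i j : ℕ), s ≠ 0 ∧ 0 < i ∧ 0 < j ∧ A.valuation a = A.valuation s ^ i ∧
    A.valuation b = A.valuation s ^ j

/-- [ACh] (hVal, hCount, hDif, hKer, hBez) One character of `D` with the right kernel.  `y` small,
`v(y)^(e (e+1)) = v(x)^(-(e+1)) = v(d)^(p (p-1))`; `s` from `ABez`, `Θ` from `SnT.prf_SCharE` for
`s`.  `u = y / s^i` has value `1`, `u ≡ c ≠ 0`, so `σ u / u ≡ 1`; if `Θ σ = 1` then `σ s / s ≡ 1`,
`σ y / y = (σ u / u) (σ s / s)^i ≡ 1`; the same for `d`.  Then `AKer`. -/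
def ACh : Prop := ∀ (p : ℕ) [Fact p.Prime] (k : Type) [Field k] [IsAlgClosed k] [CharP k p]
  (e : ℕ), 0 < e → ¬ p ∣ e → ∀ (L : Type) [Field L] [Algebra (RatFunc k) L]
  [IsSplittingField (RatFunc k) L (FA k p e)] [FiniteDimensional (RatFunc k) L]
  (A : ValuationSubring L), AtInfty (k := k) A →
  ∀ (d : L) (lab : L → ZMod p), Lb k p e A d lab →
  ∃ Θ : A.decompositionSubgroup (RatFunc k) →* kˣ,
    ∀ σ : A.decompositionSubgroup (RatFunc k), Θ σ = 1 →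
      (∀ y ∈ Sm k p e A, (σ : L ≃ₐ[RatFunc k] L) y = y) ∧
      ∀ y ∈ Bg k p e A, ∀ y' ∈ Bg k p e A,
        lab ((σ : L ≃ₐ[RatFunc k] L) y) - lab ((σ : L ≃ₐ[RatFunc k] L) y') = lab y - lab y'

/-- [AOrd] (hDif, hCount) `γ = ∏_{σ ∈ D} σ d` is fixed by `D` and `v(σ d) = v(d)`
(`SnT.SCharE_w`), so `v(γ) = v(d)^|D|`, `v(γ)^(p (p-1)) = v(x)^(-(e+1) |D|)`; by `SnT.SOrb_val`,
`v(γ) = v(x)^j`, so `j p (p-1) = -(e+1) |D|`. -/
def AOrd : Prop := ∀ (p : ℕ) [Fact p.Prime] (k : Type) [Field k] [IsAlgClosed k] [CharP k p]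
  (e : ℕ), 0 < e → ¬ p ∣ e → ∀ (L : Type) [Field L] [Algebra (RatFunc k) L]
  [IsSplittingField (RatFunc k) L (FA k p e)] [FiniteDimensional (RatFunc k) L]
  [IsGalois (RatFunc k) L] (A : ValuationSubring L), AtInfty (k := k) A →
  p * (p - 1) ∣ (e + 1) * Nat.card (A.decompositionSubgroup (RatFunc k))

/-- [AGrp] Group theory.  `N = ker Θ`.  `Θ(D)` is a finite subgroup of `kˣ`: cyclic of order `r`
prime to `p`.  `N` acts trivially on `S` and by translations on `B` (`lab (β g y) = lab y + b(g)`),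
`b` is injective on `N`; `p ∣ |D|` (transitive on `B`), so `|N| = p`, `N = zpowers τ`, `b(τ) ≠ 0`.
`g ∈ D` with `Θ g` a generator of `Θ(D)`, `c = g^p`: `g^r ∈ N`, so `g^(r p) = 1`, the order of `c`
divides `r`, and `Θ c` is a generator (`p`, `r` coprime); so `N ⊔ zpowers c = ⊤`.  `c` acts on
`B` by an affine map `t ↦ θ t + b`: if `θ ≠ 1` it has a fixed point; if `θ = 1` then `b = 0`
because the order of `c` is prime to `p`.  `D` is transitive on `S` and `τ` acts trivially, so the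
powers of `c` are transitive on `S`.  `N` is normal: `c τ c⁻¹ = τ^a`.  `e = 1`: if `c^m` commutes
with `τ` then `θ(c)^m = 1`, `c^m` acts as a translation of order prime to `p` on `B`, trivially on
`S` (one point), so `c^m = 1`, `orderOf c = r ∣ m`; `|D| = p r`, `p (p-1) ∣ 2 p r`, so
`(p - 1) / 2 ∣ r`. -/
def AGrp : Prop := ∀ (p : ℕ) [Fact p.Prime] (k : Type) [Field k] [CharP k p] (e : ℕ)
  (D B S : Type) [Group D] [Finite D] [Finite S] (β : D →* Equiv.Perm B) (σ : D →* Equiv.Perm S)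
  (lab : B ≃ ZMod p) (Θ : D →* kˣ), p ≠ 2 → 0 < e → Nat.card S = e →
  (∀ g, β g = 1 → σ g = 1 → g = 1) →
  (∀ g, ∃ θ : ZMod p, θ ≠ 0 ∧ ∀ y y', lab (β g y) - lab (β g y') = θ * (lab y - lab y')) →
  (∀ y y', ∃ g, β g y = y') → (∀ y y', ∃ g, σ g y = y') →
  (∀ g, Θ g = 1 → σ g = 1 ∧ ∀ y y', lab (β g y) - lab (β g y') = lab y - lab y') →
  p * (p - 1) ∣ (e + 1) * Nat.card D →
  ∃ τ c : D, Subgroup.zpowers τ ⊔ Subgroup.zpowers c = ⊤ ∧ orderOf τ = p ∧ σ τ = 1 ∧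
    (∀ y, β τ y ≠ y) ∧ (∀ y y', ∃ m : ℕ, (β τ ^ m) y = y') ∧ ¬ p ∣ orderOf c ∧
    (∃ a : ℕ, c * τ * c⁻¹ = τ ^ a) ∧ (∃ y, β c y = y) ∧
    (∀ y y', ∃ m : ℕ, (σ c ^ m) y = y') ∧
    (e = 1 → ∀ m : ℕ, c ^ m * τ = τ * c ^ m → (p - 1) / 2 ∣ m)

/-- [AFld] (hCount, hLab, hOrb, hAff, hCh, hOrd, hGrp) The decomposition group at infinity:
`AGrp` for `D = A.decompositionSubgroup`, `B = Bg`, `S = Sm` (subtypes; `D` permutes them, compare
`SnT/Main.lean`, `rp`); an automorphism that fixes all the roots is the identity (splitting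
field). -/
def AFld : Prop := ∀ (p : ℕ) [Fact p.Prime] (k : Type) [Field k] [IsAlgClosed k] [CharP k p]
  (e : ℕ), p ≠ 2 → 0 < e → ¬ p ∣ e → ∀ (L : Type) [Field L] [Algebra (RatFunc k) L]
  [IsSplittingField (RatFunc k) L (FA k p e)] [FiniteDimensional (RatFunc k) L]
  [IsGalois (RatFunc k) L] (A : ValuationSubring L), AtInfty (k := k) A →
  ∃ τ c : L ≃ₐ[RatFunc k] L,
    A.decompositionSubgroup (RatFunc k) = Subgroup.zpowers τ ⊔ Subgroup.zpowers c ∧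
    orderOf τ = p ∧ (∀ y ∈ Sm k p e A, τ y = y) ∧ (∀ y ∈ Bg k p e A, τ y ≠ y) ∧
    (∀ y ∈ Bg k p e A, ∀ y' ∈ Bg k p e A, ∃ m : ℕ, (τ ^ m) y = y') ∧
    ¬ p ∣ orderOf c ∧ (∃ a : ℕ, c * τ * c⁻¹ = τ ^ a) ∧ (∃ y ∈ Bg k p e A, c y = y) ∧
    (∀ y ∈ Sm k p e A, ∀ y' ∈ Sm k p e A, ∃ m : ℕ, (c ^ m) y = y') ∧
    (e = 1 → ∀ m : ℕ, c ^ m * τ = τ * c ^ m → (p - 1) / 2 ∣ m)

end MP7b0bad.AnT
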