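import Pool.Agent.Work.MP_7b0bad_ag.AnT.Fin
import Pool.Agent.Work.MP_7b0bad_ag.AnT.Stmts
import Pool.Agent.Work.MP_7b0bad_ag.SnT.SIner

set_option autoImplicit false

/-!
# Block AnT: assembly
-/

open Polynomial Pointwise

namespace MP7b0bad.AnT

open MP7b0bad.SnT

theorem prf_AbMain (hIrr : AIrr) (hUnr : AUnr) (hCount : ACount) (hFld : AFld) :
    MP7b0bad.MT.AbMain := by
  intro p _ k _ _ _ e hp2 he hpe
  obtain ⟨-, hdeg, hirr, hsep⟩ := hIrr p k e he hpe
  have : FiniteDimensional (RatFunc k) (FA k p e).SplittingField :=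
    Polynomial.IsSplittingField.finiteDimensional _ (FA k p e)
  have : IsGalois (RatFunc k) (FA k p e).SplittingField :=
    IsGalois.of_separable_splitting_field hsep
  obtain ⟨A, hA⟩ := prf_F4 k (FA k p e).SplittingField
  obtain ⟨hB, -, hcov⟩ := hCount p k e he hpe (FA k p e).SplittingField A hA
  obtain ⟨τ, c, hdec, -, hτS, -, hτB, hc, hn, hcB, hcS, he1⟩ :=
    hFld p k e hp2 he hpe (FA k p e).SplittingField A hA
  refine fld_main (p := p) (k := k) (e := e) (L := (FA k p e).SplittingField) (F := FA k p e)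
    (A := A) (B := Bg k p e A) (S := Sm k p e A) (x := τ) (c := c) ?_
  refine ⟨hdeg, hirr, hsep, ?_, hA, ?_, ?_, ?_, hB, hτB, hτS, hcB, hcS, hc, hn, he1⟩
  · intro A' h1 h2
    exact hUnr p k e he hpe (FA k p e).SplittingField A' h1 h2
  · rw [prf_SIner k (FA k p e).SplittingField A hA]
    exact hdec
  · intro y
    constructor
    · intro hy
      by_cases h : y ∈ A
      · exact Or.inr ⟨hy, hcov y hy h⟩
      · exact Or.inl ⟨hy, h⟩
    · rintro (h | h)
      · exact h.1
      · exact h.1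
  · intro y hy hy'
    exact hy.2 (A.nonunits_le hy'.2)

end MP7b0bad.AnT
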