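import Pool.Agent.Work.MP_7b0bad_ag.AnT.Stmts
import Pool.Agent.Work.MP_7b0bad_ag.SnT.SCharE

/-!
# MP_7b0bad_ag, block AnT: item ACh, one character of the decomposition group
-/

set_option autoImplicit false

open Polynomial Pointwise

namespace MP7b0bad.AnT

open SnT (cc xx rp)

section

variable {k : Type} [Field k] {L : Type} [Field L] {A : ValuationSubring L}

/-- products of elements congruent to one -/
theorem ACh_mul {u w : L} (hu : A.valuation (u - 1) < 1) (hw : A.valuation (w - 1) < 1) :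
    A.valuation (u * w - 1) < 1 := by
  have h1 : A.valuation u ≤ 1 := by
    have e : u = (u - 1) + 1 := by ring
    rw [e]
    exact (A.valuation.map_add _ _).trans (max_le hu.le (by rw [map_one]))
  have e : u * w - 1 = u * (w - 1) + (u - 1) := by ring
  rw [e]
  refine A.valuation.map_add_lt ?_ hu
  rw [map_mul]
  exact mul_lt_one_of_nonneg_of_lt_one_right h1 zero_le hw

theorem ACh_pow {u : L} (hu : A.valuation (u - 1) < 1) (n : ℕ) :
    A.valuation (u ^ n - 1) < 1 := by
  induction n with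
  | zero => rw [pow_zero, sub_self, map_zero]; exact zero_lt_one
  | succ n ih => rw [pow_succ]; exact ACh_mul ih hu

end

/-- an element of the value of a power of `s` -/
theorem ACh_one {k : Type} [Field k] [IsAlgClosed k] {L : Type} [Field L]
    [Algebra (RatFunc k) L] [FiniteDimensional (RatFunc k) L] {A : ValuationSubring L}
    (hA : AtInfty (k := k) A) {s a : L} (hs : s ≠ 0) {i : ℕ}
    (h : A.valuation a = A.valuation s ^ i) (σ : L ≃ₐ[RatFunc k] L) (hσ : σ • A = A)
    (hσs : A.valuation (σ s / s - 1) < 1) : A.valuation (σ a / a - 1) < 1 := by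
  have hvs : A.valuation s ≠ 0 := (Valuation.ne_zero_iff _).2 hs
  have ha : a ≠ 0 := by
    rw [← Valuation.ne_zero_iff A.valuation, h]
    exact pow_ne_zero _ hvs
  have hsi : s ^ i ≠ 0 := pow_ne_zero _ hs
  have hσs0 : σ s ≠ 0 := by
    rw [Ne, map_eq_zero_iff _ (AlgEquiv.injective _)]
    exact hs
  set u : L := a / s ^ i with hu
  have hvu : A.valuation u = 1 := by
    rw [hu, map_div₀, map_pow, h, div_self (pow_ne_zero _ hvs)]
  obtain ⟨c, hc⟩ := (prf_F6 prf_F3) k L A hA u ((A.valuation_le_one_iff _).1 hvu.le)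
  rw [A.mem_nonunits_iff] at hc
  have h1 := SnT.SCharE_lt A σ hσ _ |>.2 hc
  rw [map_sub, AlgEquiv.commutes] at h1
  have h2 : A.valuation (σ u - u) < 1 := by
    have e : σ u - u = (σ u - algebraMap (RatFunc k) L (algebraMap k (RatFunc k) c)) -
        (u - algebraMap (RatFunc k) L (algebraMap k (RatFunc k) c)) := by ring
    rw [e]
    exact A.valuation.map_sub_lt h1 hc
  have hu0 : u ≠ 0 := div_ne_zero ha hsi
  have h3 : A.valuation (σ u / u - 1) < 1 := by
    have e : σ u / u - 1 = (σ u - u) / u := by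
      field_simp
    rw [e, map_div₀, hvu, div_one]
    exact h2
  have h4 := ACh_mul h3 (ACh_pow hσs i)
  have e : σ a / a = σ u / u * (σ s / s) ^ i := by
    rw [hu, map_div₀, map_pow, div_pow]
    field_simp
  rw [e]
  exact h4

theorem prf_ACh (hVal : AVal) (hCount : ACount) (hDif : ADif) (hKer : AKer) (hBez : ABez) :
    ACh := by
  intro p _ k _ _ _ e he hpe L _ _ _ _ A hA d lab hL
  have hp2 : 2 ≤ p := (Fact.out : p.Prime).two_le
  have hX : 1 < A.valuation (xx k L) := F3_X hA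
  have hX0 : A.valuation (xx k L) ≠ 0 := (zero_lt_one.trans hX).ne'
  obtain ⟨-, hcS, -⟩ := hCount p k e he hpe L A hA
  obtain ⟨-, hvS⟩ := hVal p k e he L A hA
  have hne : (Sm k p e A).Nonempty := by
    by_contra hcon
    rw [Set.not_nonempty_iff_eq_empty] at hcon
    rw [hcon, Set.ncard_empty] at hcS
    omega
  obtain ⟨y, hy⟩ := hne
  obtain ⟨hy0, hyv⟩ := hvS y hy
  obtain ⟨z, hz, z', hz', hzz, hd⟩ := hL.dif
  have hdv := (hDif p k e he hpe L A hA z hz z' hz' hzz).1
  rw [← hd] at hdv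
  have hd0 : d ≠ 0 := by
    rw [hd]
    exact sub_ne_zero.2 hzz
  have hpow : A.valuation y ^ (e * (e + 1)) = A.valuation d ^ (p * (p - 1)) := by
    have h1 : A.valuation y ^ (e * (e + 1)) * A.valuation (xx k L) ^ (e + 1) = 1 := by
      rw [pow_mul, ← mul_pow, hyv, one_pow]
    have h2 := h1.trans hdv.symm
    exact mul_right_cancel₀ (pow_ne_zero _ hX0) h2
  have hm : 0 < e * (e + 1) := Nat.mul_pos he (Nat.succ_pos e)
  have hn : 0 < p * (p - 1) := Nat.mul_pos (by omega) (by omega)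
  obtain ⟨s, i, j, hs, hi, hj, hys, hds⟩ := hBez L A y d _ _ hy0 hd0 hm hn hpow
  obtain ⟨Θ, hΘ⟩ := SnT.prf_SCharE k L A hA s hs ⟨i * e, Nat.mul_pos hi he, (RatFunc.X)⁻¹, by
    rw [pow_mul, ← hys, map_inv₀, map_inv₀]
    exact eq_inv_of_mul_eq_one_left hyv⟩
  refine ⟨Θ, fun σ hσ => ?_⟩
  have h1 := hΘ σ
  rw [hσ, A.mem_nonunits_iff, Units.val_one, map_one] at h1
  have h2 := ACh_one hA hs hys (σ : L ≃ₐ[RatFunc k] L) σ.2 h1
  have h3 := ACh_one hA hs hds (σ : L ≃ₐ[RatFunc k] L) σ.2 h1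
  exact hKer p k e he hpe L A hA d lab hL σ σ.2 ⟨y, hy, A.mem_nonunits_iff.2 h2⟩
    (A.mem_nonunits_iff.2 h3)

end MP7b0bad.AnT
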