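import Pool.Agent.Work.MP_7b0bad_ag.AnT.Stmts

set_option autoImplicit false

/-!
# Block AnT, item ACount: the numbers of big and of small roots at infinity

The product of all the roots has value one, so the values of the roots (AVal) give a linear
equation for the numbers of big and of small roots.
-/

open Polynomial Pointwise

namespace MP7b0bad.AnT

open SnT (cc xx rp)

private theorem ACount_val {Γ : Type} [LinearOrderedCommGroupWithZero Γ] {γ P Q : Γ}
    {b s p e : ℕ} (hγ : 1 < γ) (hP : P ^ p = γ ^ b) (hQ : Q ^ e * γ ^ s = 1) (hPQ : P * Q = 1) :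
    b * e = p * s := by
  have h1 : γ ^ (b * e) * Q ^ (p * e) = 1 := by
    rw [pow_mul, ← hP, ← pow_mul, ← mul_pow, hPQ, one_pow]
  have h2 : γ ^ (p * s) * Q ^ (p * e) = 1 := by
    rw [mul_comm p s, mul_comm p e, pow_mul, pow_mul, ← mul_pow, mul_comm, hQ, one_pow]
  have h3 : Q ^ (p * e) ≠ 0 := right_ne_zero_of_mul_eq_one h1
  have h4 := mul_right_cancel₀ h3 (h1.trans h2.symm)
  exact (pow_right_strictMono₀ hγ).injective h4

private theorem ACount_arith {b s p e : ℕ} (hp : 0 < p) (h1 : b + s = p + e)
    (h2 : b * e = p * s) : b = p ∧ s = e := by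
  have h3 : b * (p + e) = p * (p + e) := by
    rw [← h1, mul_add, mul_add p b s, ← h2]
    have : b + s = p + e := h1
    have h4 : b * b + b * s = b * (p + e) := by rw [← mul_add, this]
    rw [h4]
    ring
  have h5 : b = p := Nat.eq_of_mul_eq_mul_right (by omega) h3
  exact ⟨h5, by omega⟩

theorem prf_ACount (hIrr : AIrr) (hVal : AVal) : ACount := by
  intro p _ k _ _ e he hpe L _ _ _ A hA
  classical
  obtain ⟨hmonic, hdeg, -, hsep⟩ := hIrr p k e he hpe
  obtain ⟨hvb, hvs⟩ := hVal p k e he L A hA
  have hp0 : 0 < p := (Fact.out : p.Prime).pos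
  have hspl : ((FA k p e).map (algebraMap (RatFunc k) L)).Splits :=
    IsSplittingField.splits L (FA k p e)
  set F := FA k p e with hF
  set R : Finset L := (F.aroots L).toFinset with hR
  have hRmem : ∀ y, y ∈ R ↔ y ∈ F.rootSet L := by
    intro y
    rw [rootSet_def, Finset.mem_coe]
  have hnod : (F.aroots L).Nodup := by
    rw [aroots_def]
    exact nodup_roots hsep.map
  have hcard : R.card = p + e := by
    rw [hR, Multiset.toFinset_card_of_nodup hnod, aroots_def, ← hspl.natDegree_eq_card_roots,
      natDegree_map, hdeg]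
  have hprod : aeval (0 : L) F = ∏ y ∈ R, (0 - y) := by
    rw [hspl.aeval_eq_prod_aroots_of_monic hmonic, Finset.prod_eq_multiset_prod, hR,
      Multiset.toFinset_val, hnod.dedup]
  have hzero : aeval (0 : L) F = 1 := by
    rw [hF, FA, SnT.aeval_FF]
    simp only [eval₂_add, eval₂_pow, eval₂_X, eval₂_one]
    rw [zero_pow he.ne', zero_pow (by omega), mul_zero, zero_add, sub_zero]
  have hx1 : 1 < A.valuation (xx k L) := by
    rw [← not_le, A.valuation_le_one_iff]
    exact hA.2
  -- the roots in `A` are in the maximal ideal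
  have hnear : ∀ y ∈ F.rootSet L, y ∈ A → y ∈ A.nonunits := by
    intro y hy hyA
    by_contra hcon
    have h1 : A.valuation y = 1 := by
      refine le_antisymm ((A.valuation_le_one_iff _).2 hyA) ?_
      rw [← not_lt, ← ValuationSubring.mem_nonunits_iff]
      exact hcon
    have h2 := congrArg A.valuation (root_eq hy)
    have h3 : A.valuation (y ^ (p + e) + 1) ≤ 1 :=
      (A.valuation_le_one_iff _).2 (A.add_mem _ _ (pow_mem hyA _) A.one_mem)
    rw [map_mul, map_pow, h1, one_pow, mul_one] at h2
    rw [h2] at h3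
    exact absurd h3 (not_le.2 hx1)
  set Rb : Finset L := R.filter fun y => y ∉ A with hRb
  set RA : Finset L := R.filter fun y => y ∈ A with hRA
  have hsum : Rb.card + RA.card = p + e := by
    rw [← hcard, add_comm]
    exact Finset.card_filter_add_card_filter_not (s := R) (fun y => y ∈ A)
  have hone : (∏ y ∈ Rb, A.valuation y) * ∏ y ∈ RA, A.valuation y = 1 := by
    have h1 : A.valuation (aeval (0 : L) F) = 1 := by rw [hzero, map_one]
    rw [hprod, map_prod] at h1
    simp only [zero_sub, Valuation.map_neg] at h1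
    have h2 := Finset.prod_filter_mul_prod_filter_not R (fun y => y ∈ A)
      (fun y => A.valuation y)
    rw [h1, mul_comm] at h2
    exact h2
  have hbs : Rb.card * e = p * RA.card := by
    refine ACount_val hx1 (P := ∏ y ∈ Rb, A.valuation y) (Q := ∏ y ∈ RA, A.valuation y)
      ?_ ?_ hone
    · rw [← Finset.prod_pow, ← Finset.prod_const]
      refine Finset.prod_congr rfl fun y hy => ?_
      have h4 := Finset.mem_filter.1 hy
      exact hvb y ⟨(hRmem y).1 h4.1, h4.2⟩
    · rw [← Finset.prod_pow, ← Finset.prod_const, ← Finset.prod_mul_distrib]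
      refine Finset.prod_eq_one fun y hy => ?_
      have h4 := Finset.mem_filter.1 hy
      have h5 := (hRmem y).1 h4.1
      exact (hvs y ⟨h5, hnear y h5 h4.2⟩).2
  obtain ⟨hb, hs⟩ := ACount_arith hp0 hsum hbs
  refine ⟨?_, ?_, hnear⟩
  · have : Bg k p e A = ↑Rb := by
      ext y
      rw [Finset.mem_coe, hRb, Finset.mem_filter, hRmem]
      rfl
    rw [this, Set.ncard_coe_finset, hb]
  · have : Sm k p e A = ↑RA := by
      ext y
      rw [Finset.mem_coe, hRA, Finset.mem_filter, hRmem]
      constructor
      · rintro ⟨h1, h2⟩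
        exact ⟨h1, A.nonunits_subset h2⟩
      · rintro ⟨h1, h2⟩
        exact ⟨h1, hnear y h1 h2⟩
    rw [this, Set.ncard_coe_finset, hs]

end MP7b0bad.AnT
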