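import Pool.Agent.Work.MP_7b0bad_ag.AnT.Stmts
import Pool.Agent.Work.MP_7b0bad_ag.Bd.B03

set_option autoImplicit false

/-!
# Block AnT, item ADif (helper33): differences of the big roots
-/

open Polynomial Pointwise

namespace MP7b0bad.AnT

open SnT (cc xx rp)

/-- the identity `d ^ (p - 1) y ^ (e + 1) u ^ e = 1 + u + ... + u ^ (e - 1)`, `u = y' / y` -/
theorem ADif_id {L : Type} [Field L] (p : ℕ) [Fact p.Prime] [CharP L p] (e : ℕ) (x y y' : L)
    (hy0 : y ≠ 0) (hy0' : y' ≠ 0) (hne : y' ≠ y) (h : y ^ (p + e) + 1 = x * y ^ e)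
    (h' : y' ^ (p + e) + 1 = x * y' ^ e) :
    (y' - y) ^ (p - 1) * y ^ (e + 1) * (y' / y) ^ e = ∑ i ∈ Finset.range e, (y' / y) ^ i := by
  have hd : y' - y ≠ 0 := sub_ne_zero.2 hne
  have hp1 : p = (p - 1) + 1 := by
    have := (Fact.out : p.Prime).one_lt
    omega
  set u : L := y' / y with hu
  have hyu : y' = u * y := by rw [hu]; field_simp
  have h1 : y ^ e * y' ^ e * (y' ^ p - y ^ p) = y' ^ e - y ^ e := by
    have e1 : y ^ (p + e) * y' ^ e + y' ^ e = y' ^ (p + e) * y ^ e + y ^ e := by
      linear_combination (y' ^ e) * h - (y ^ e) * h'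
    rw [pow_add, pow_add] at e1
    linear_combination -e1
  have h2 : (y' - y) ^ p = y' ^ p - y ^ p := sub_pow_char y' y
  have h3 : (∑ i ∈ Finset.range e, u ^ i) * (u - 1) = u ^ e - 1 := geom_sum_mul u e
  have h4 : (y' - y) ^ p = (y' - y) ^ (p - 1) * (y' - y) := by
    conv_lhs => rw [hp1, pow_succ]
  have h5 : y' - y = y * (u - 1) := by rw [hyu]; ring
  have hye : y ^ e ≠ 0 := pow_ne_zero _ hy0
  apply mul_right_cancel₀ hd
  apply mul_left_cancel₀ hye
  have h6 : y' ^ e = u ^ e * y ^ e := by rw [hyu, mul_pow]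
  rw [← h2, h4, h6] at h1
  have h7 : y ^ e * ((∑ i ∈ Finset.range e, u ^ i) * (y' - y)) = y * (u ^ e * y ^ e - y ^ e) := by
    rw [h5]
    linear_combination (y ^ e * y) * h3
  rw [h7, ← h1]
  ring

variable {L : Type} [Field L] (A : ValuationSubring L)

theorem ADif_res {a : L} (ha : a ∈ A) (h : A.valuation (a - 1) < 1) :
    IsLocalRing.residue A ⟨a, ha⟩ = 1 := by
  have h1 : ((⟨a, ha⟩ - 1 : A) : L) ∈ A.nonunits := by
    rw [A.mem_nonunits_iff]
    exact h
  have h2 := (A.coe_mem_nonunits_iff).1 h1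
  have h3 := (IsLocalRing.residue_eq_zero_iff (R := A) _).2 h2
  rw [map_sub, map_one, sub_eq_zero] at h3
  exact h3

/-- the value of a difference, and its leading coefficient -/
theorem ADif_one (p : ℕ) [Fact p.Prime] [CharP L p] (e : ℕ) (x y y' : L)
    (hne : y' ≠ y) (h : y ^ (p + e) + 1 = x * y ^ e)
    (h' : y' ^ (p + e) + 1 = x * y' ^ e) (hv : 1 < A.valuation y)
    (hv' : A.valuation y' = A.valuation y) :
    A.valuation (y' - y) < 1 ∧ ∃ E : A, (E : L) = (y' - y) ^ (p - 1) * y ^ (e + 1) ∧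
      IsLocalRing.residue A E = (e : IsLocalRing.ResidueField A) := by
  have hp1 := (Fact.out : p.Prime).one_lt
  have hy0 : y ≠ 0 := by
    rintro rfl
    rw [map_zero] at hv
    exact absurd hv (not_lt.2 zero_le_one)
  have hvy0 : A.valuation y ≠ 0 := (zero_lt_one.trans hv).ne'
  have hy0' : y' ≠ 0 := by
    rintro rfl
    rw [map_zero] at hv'
    exact hvy0 hv'.symm
  have hid := ADif_id p e x y y' hy0 hy0' hne h h'
  have hvu : A.valuation (y' / y) = 1 := by
    rw [map_div₀, hv', div_self hvy0]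
  set u : L := y' / y with hu
  have hS : A.valuation (∑ i ∈ Finset.range e, u ^ i) ≤ 1 := by
    apply Valuation.map_sum_le
    intro i _
    rw [map_pow, hvu, one_pow]
  have hE1 : A.valuation ((y' - y) ^ (p - 1) * y ^ (e + 1)) ≤ 1 := by
    have h1 := hS
    rw [← hid, map_mul, map_pow A.valuation u, hvu, one_pow, mul_one] at h1
    exact h1
  have hd : A.valuation (y' - y) < 1 := by
    by_contra hcon
    push Not at hcon
    rw [map_mul, map_pow, map_pow] at hE1
    have h1 : (1 : A.ValueGroup) ≤ A.valuation (y' - y) ^ (p - 1) := one_le_pow_of_one_le' hcon _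
    have h2 : (1 : A.ValueGroup) < A.valuation y ^ (e + 1) := one_lt_pow₀ hv (Nat.succ_ne_zero e)
    have h3 : A.valuation y ^ (e + 1) ≤ A.valuation (y' - y) ^ (p - 1) * A.valuation y ^ (e + 1) := by
      calc A.valuation y ^ (e + 1) = 1 * A.valuation y ^ (e + 1) := (one_mul _).symm
        _ ≤ _ := mul_le_mul_left h1 _
    exact absurd (h2.trans_le (h3.trans hE1)) (lt_irrefl _)
  refine ⟨hd, ⟨(y' - y) ^ (p - 1) * y ^ (e + 1), (A.valuation_le_one_iff _).1 hE1⟩, rfl, ?_⟩
  have huA : u ∈ A := (A.valuation_le_one_iff _).1 hvu.le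
  have hu1 : A.valuation (u - 1) < 1 := by
    have e1 : u - 1 = (y' - y) / y := by rw [hu]; field_simp
    rw [e1, map_div₀, div_lt_one₀ (zero_lt_iff.2 hvy0)]
    exact hd.trans hv
  have hr := ADif_res A huA hu1
  have hid' : (⟨(y' - y) ^ (p - 1) * y ^ (e + 1), (A.valuation_le_one_iff _).1 hE1⟩ : A) *
      (⟨u, huA⟩ : A) ^ e = ∑ i ∈ Finset.range e, (⟨u, huA⟩ : A) ^ i := by
    apply Subtype.ext
    push_cast
    exact hid
  have h1 := congrArg (IsLocalRing.residue A) hid'
  rw [map_mul, map_pow, hr, one_pow, mul_one, map_sum] at h1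
  rw [h1, Finset.sum_congr rfl fun i _ => by rw [map_pow, hr, one_pow], Finset.sum_const,
    Finset.card_range, nsmul_one]

theorem prf_ADif (hVal : AVal) : ADif := by
  intro p hp k _ hk e he hpe L _ _ A hA y hy y' hy' hne
  have hp1 := hp.out.one_lt
  have hcL : CharP L p := by
    have : CharP (RatFunc k) p := charP_of_injective_algebraMap (algebraMap k (RatFunc k)).injective p
    exact charP_of_injective_algebraMap (algebraMap (RatFunc k) L).injective p
  have hX : 1 < A.valuation (xx k L) := F3_X hA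
  have hv1 := (hVal p k e he L A hA).1
  have hvX : ∀ y ∈ Bg k p e A, 1 < A.valuation y := by
    intro y hy
    have h1 := hy.2
    rw [← A.valuation_le_one_iff, not_le] at h1
    exact h1
  have hvv : ∀ y ∈ Bg k p e A, ∀ z ∈ Bg k p e A, A.valuation z = A.valuation y := by
    intro y hy z hz
    have h1 := (hv1 z hz).trans (hv1 y hy).symm
    exact (pow_left_inj₀ zero_le zero_le (by omega)).1 h1
  -- the residue of `e`
  have he0 : (e : IsLocalRing.ResidueField A) ≠ 0 := by
    have h1 : ((e : ℕ) : k) ≠ 0 := by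
      intro h
      exact hpe ((CharP.cast_eq_zero_iff k p e).1 h)
    have h2 := F3_C hA _ h1
    rw [map_natCast, map_natCast] at h2
    intro h3
    have h4 : IsLocalRing.residue A ((e : ℕ) : A) = 0 := by
      rw [map_natCast]
      exact h3
    have h5 := (A.coe_mem_nonunits_iff).2 ((IsLocalRing.residue_eq_zero_iff (R := A) _).1 h4)
    rw [A.mem_nonunits_iff] at h5
    have h6 : (((e : ℕ) : A) : L) = ((e : ℕ) : L) := by push_cast; rfl
    rw [h6, h2] at h5
    exact lt_irrefl _ h5
  obtain ⟨hd, E, hE, hEr⟩ := ADif_one A p e (xx k L) y y' hne (root_eq hy.1) (root_eq hy'.1)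
    (hvX y hy) (hvv y hy y' hy')
  have hunit : ∀ E : A, IsLocalRing.residue A E = (e : IsLocalRing.ResidueField A) →
      A.valuation (E : L) = 1 := by
    intro E hEr
    refine le_antisymm ((A.valuation_le_one_iff _).2 E.2) ?_
    by_contra hcon
    push Not at hcon
    have h1 := (A.coe_mem_nonunits_iff).1 ((A.mem_nonunits_iff).2 hcon)
    rw [← IsLocalRing.residue_eq_zero_iff, hEr] at h1
    exact he0 h1
  have hEv := hunit E hEr
  have hEv' := hEv
  rw [hE, map_mul, map_pow, map_pow] at hEv'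
  refine ⟨?_, ?_⟩
  · have h1 : A.valuation (y' - y) ^ (p * (p - 1)) * A.valuation (xx k L) ^ (e + 1) =
        (A.valuation (y' - y) ^ (p - 1) * A.valuation y ^ (e + 1)) ^ p := by
      rw [← hv1 y hy, mul_pow, ← pow_mul, ← pow_mul, ← pow_mul, mul_comm p (p - 1),
        mul_comm p (e + 1)]
    rw [h1, hEv', one_pow]
  · intro z hz z' hz' hne'
    obtain ⟨hd', E', hE', hEr'⟩ := ADif_one A p e (xx k L) z z' hne' (root_eq hz.1) (root_eq hz'.1)
      (hvX z hz) (hvv z hz z' hz')
    have hEv2 := hunit E' hEr'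
    have hEv2' := hEv2
    rw [hE', map_mul, map_pow, map_pow] at hEv2'
    have hy0 : y ≠ 0 := by
      rintro rfl
      exact hy.2 A.zero_mem
    have hz0 : z ≠ 0 := by
      rintro rfl
      exact hz.2 A.zero_mem
    have hyz : A.valuation z = A.valuation y := hvv y hy z hz
    have hvy0 : A.valuation y ≠ 0 := (Valuation.ne_zero_iff _).2 hy0
    have hdd : y' - y ≠ 0 := sub_ne_zero.2 hne
    have hvd0 : A.valuation (y' - y) ≠ 0 := (Valuation.ne_zero_iff _).2 hdd
    -- the quotient of the roots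
    have hrA : A.valuation (z / y) = 1 := by rw [map_div₀, hyz, div_self hvy0]
    have hr1 : A.valuation (z / y - 1) < 1 := by
      by_cases hzy : z = y
      · rw [hzy, div_self hy0, sub_self, map_zero]
        exact zero_lt_one
      · have h1 := (ADif_one A p e (xx k L) y z hzy (root_eq hy.1) (root_eq hz.1)
          (hvX y hy) hyz).1
        have e1 : z / y - 1 = (z - y) / y := by field_simp
        rw [e1, map_div₀, div_lt_one₀ (zero_lt_iff.2 hvy0)]
        exact h1.trans (hvX y hy)
    have hrA' : z / y ∈ A := (A.valuation_le_one_iff _).1 hrA.le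
    have hrr := ADif_res A hrA' hr1
    -- the quotient of the differences
    set w : L := (z' - z) / (y' - y) with hw
    have hwid : (E : L) * w ^ (p - 1) * (z / y) ^ (e + 1) = E' := by
      rw [hE, hE', hw, div_pow, div_pow]
      field_simp
    have hwv : A.valuation w = 1 := by
      have h1 := congrArg A.valuation hwid
      rw [map_mul, map_mul, map_pow, map_pow, hEv, hEv2, hrA, one_pow, one_mul, mul_one] at h1
      exact (pow_eq_one_iff_left (by omega)).1 h1
    have hwA : w ∈ A := (A.valuation_le_one_iff _).1 hwv.le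
    have hwid' : E * (⟨w, hwA⟩ : A) ^ (p - 1) * (⟨z / y, hrA'⟩ : A) ^ (e + 1) = E' := by
      apply Subtype.ext
      push_cast
      exact hwid
    have h1 := congrArg (IsLocalRing.residue A) hwid'
    rw [map_mul, map_mul, map_pow, map_pow, hrr, one_pow, mul_one, hEr, hEr'] at h1
    have h2 : (IsLocalRing.residue A (⟨w, hwA⟩ : A)) ^ (p - 1) = 1 := by
      apply mul_left_cancel₀ he0
      rw [h1, mul_one]
    have hcκ : CharP (IsLocalRing.ResidueField A) p := by
      have hpA : ((p : ℕ) : A) = 0 := by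
        apply Subtype.ext
        push_cast
        exact CharP.cast_eq_zero L p
      have hpκ : ((p : ℕ) : IsLocalRing.ResidueField A) = 0 := by
        rw [← map_natCast (IsLocalRing.residue A), hpA, map_zero]
      have h3 := ringChar.dvd hpκ
      rcases (Nat.dvd_prime hp.out).1 h3 with h4 | h4
      · exact absurd h4 CharP.ringChar_ne_one
      · exact ringChar.of_eq h4
    have h3 : (IsLocalRing.residue A (⟨w, hwA⟩ : A)) ^ p =
        IsLocalRing.residue A (⟨w, hwA⟩ : A) := by
      have e1 : p = (p - 1) + 1 := by omega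
      conv_lhs => rw [e1, pow_succ, h2, one_mul]
    have h4 := (Subfield.mem_bot_iff_pow_eq_self (F := IsLocalRing.ResidueField A) p).2 h3
    rw [← ZMod.fieldRange_castHom_eq_bot p] at h4
    obtain ⟨a, ha⟩ := h4
    refine ⟨a, ?_, ?_⟩
    · rintro rfl
      rw [map_zero] at ha
      rw [← ha, zero_pow (by omega)] at h2
      exact zero_ne_one h2
    · have h5 : IsLocalRing.residue A ((⟨w, hwA⟩ : A) - ((a.val : ℕ) : A)) = 0 := by
        rw [map_sub, map_natCast, ← ha, ZMod.castHom_apply, ZMod.natCast_val, sub_self]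
      have h6 := (A.coe_mem_nonunits_iff).2 ((IsLocalRing.residue_eq_zero_iff (R := A) _).1 h5)
      have h7 : (((⟨w, hwA⟩ : A) - ((a.val : ℕ) : A) : A) : L) = w - ((a.val : ℕ) : L) := by
        push_cast
        rfl
      rw [h7] at h6
      exact h6

end MP7b0bad.AnT
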