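import Pool.Agent.Work.MP_7b0bad_ag.AnT.Stmts
import Pool.Agent.Work.MP_7b0bad_ag.SnT.Main

/-!
# Block AnT, item AFld: the decomposition group at infinity
-/

set_option autoImplicit false

open Polynomial Pointwise

namespace MP7b0bad.AnT

open SnT (cc xx rp)

/-- the action of a group of automorphisms on an invariant set -/
noncomputable def AFld_act {K L : Type} [Field K] [Field L] [Algebra K L]
    (D : Subgroup (L ≃ₐ[K] L)) (T : Set L) (hT : ∀ σ ∈ D, ∀ y ∈ T, σ y ∈ T) :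
    D →* Equiv.Perm T where
  toFun σ :=
    { toFun := fun y => ⟨(σ : L ≃ₐ[K] L) y, hT σ σ.2 y y.2⟩
      invFun := fun y => ⟨((σ⁻¹ : D) : L ≃ₐ[K] L) y, hT _ (σ⁻¹).2 y y.2⟩
      left_inv := fun y => Subtype.ext ((σ : L ≃ₐ[K] L).symm_apply_apply y)
      right_inv := fun y => Subtype.ext ((σ : L ≃ₐ[K] L).apply_symm_apply y) }
  map_one' := rfl
  map_mul' _ _ := rfl

theorem AFld_act_apply {K L : Type} [Field K] [Field L] [Algebra K L]
    (D : Subgroup (L ≃ₐ[K] L)) (T : Set L) (hT : ∀ σ ∈ D, ∀ y ∈ T, σ y ∈ T) (σ : D) (y : T) :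
    ((AFld_act D T hT σ y : T) : L) = (σ : L ≃ₐ[K] L) y := rfl

theorem AFld_act_pow {K L : Type} [Field K] [Field L] [Algebra K L]
    (D : Subgroup (L ≃ₐ[K] L)) (T : Set L) (hT : ∀ σ ∈ D, ∀ y ∈ T, σ y ∈ T) (σ : D) (m : ℕ)
    (y : T) : (((AFld_act D T hT σ ^ m) y : T) : L) = ((σ : L ≃ₐ[K] L) ^ m) y := by
  rw [← map_pow, AFld_act_apply, Subgroup.coe_pow]

/-- an automorphism that fixes all the roots is the identity -/
theorem AFld_one {K L : Type} [Field K] [Field L] [Algebra K L] (F : K[X])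
    [IsSplittingField K L F] (σ : L ≃ₐ[K] L) (h : ∀ y ∈ F.rootSet L, σ y = y) : σ = 1 := by
  have h1 : (σ : L →ₐ[K] L) = AlgHom.id K L :=
    AlgHom.ext_of_adjoin_eq_top (IsSplittingField.adjoin_rootSet L F) (fun y hy => h y hy)
  ext y
  exact DFunLike.congr_fun h1 y

theorem prf_AFld (hCount : ACount) (hLab : ALab) (hOrb : AOrb) (hAff : AAff) (hCh : ACh)
    (hOrd : AOrd) (hGrp : AGrp) : AFld := by
  intro p _ k _ _ _ e hp2 he hpe L _ _ _ _ _ A hA
  obtain ⟨_, hcS, hcov⟩ := hCount p k e he hpe L A hA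
  obtain ⟨d, lab, hlab⟩ := hLab p k e he hpe L A hA
  obtain ⟨hoB, hoS⟩ := hOrb p k e he hpe L A hA
  obtain ⟨Θ, hΘ⟩ := hCh p k e he hpe L A hA d lab hlab
  have hord := hOrd p k e he hpe L A hA
  have hBst : ∀ σ ∈ A.decompositionSubgroup (RatFunc k), ∀ y ∈ Bg k p e A, σ y ∈ Bg k p e A :=
    fun σ hσ y hy => ⟨SnT.rp_mem _ σ y hy.1, fun h1 => hy.2 ((SnT.Main_dec σ hσ y).1 h1)⟩
  have hSst : ∀ σ ∈ A.decompositionSubgroup (RatFunc k), ∀ y ∈ Sm k p e A, σ y ∈ Sm k p e A :=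
    fun σ hσ y hy => ⟨SnT.rp_mem _ σ y hy.1, (SnT.Main_non σ hσ y).2 hy.2⟩
  haveI : Finite (Sm k p e A) :=
    ((rootSet_finite (FA k p e) L).subset (fun y (hy : y ∈ Sm k p e A) => hy.1)).to_subtype
  haveI : Finite (L ≃ₐ[RatFunc k] L) := inferInstance
  haveI : Finite (A.decompositionSubgroup (RatFunc k)) := inferInstance
  let B : Type := Bg k p e A
  let S : Type := Sm k p e A
  let β : A.decompositionSubgroup (RatFunc k) →* Equiv.Perm B :=
    AFld_act (A.decompositionSubgroup (RatFunc k)) (Bg k p e A) hBst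
  let s : A.decompositionSubgroup (RatFunc k) →* Equiv.Perm S :=
    AFld_act (A.decompositionSubgroup (RatFunc k)) (Sm k p e A) hSst
  let lb : B ≃ ZMod p := Equiv.ofBijective (fun y : B => lab (y : L))
    ⟨fun y y' h => Subtype.ext (hlab.inj y y.2 y' y'.2 h), fun a => by
      obtain ⟨y, hy, hya⟩ := hlab.surj a
      exact ⟨⟨y, hy⟩, hya⟩⟩
  have hlb : ∀ y : B, lb y = lab (y : L) := fun _ => rfl
  have hβ : ∀ (g : A.decompositionSubgroup (RatFunc k)) (y : B),
      ((β g y : B) : L) = (g : L ≃ₐ[RatFunc k] L) y := fun _ _ => rfl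
  have hs : ∀ (g : A.decompositionSubgroup (RatFunc k)) (y : S),
      ((s g y : S) : L) = (g : L ≃ₐ[RatFunc k] L) y := fun _ _ => rfl
  obtain ⟨τ, c, hgen, hoτ, hsτ, hβτ, hβt, hoc, hnor, hfix, hst, he1⟩ :=
    hGrp p k e (A.decompositionSubgroup (RatFunc k)) B S β s lb Θ hp2 he
      (by rw [← hcS]; exact Nat.card_coe_set_eq _)
      (by
        intro g h1 h2
        have h3 : (g : L ≃ₐ[RatFunc k] L) = 1 := by
          refine AFld_one (FA k p e) _ (fun y hy => ?_)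
          by_cases hyA : y ∈ A
          · have h4 : y ∈ Sm k p e A := ⟨hy, hcov y hy hyA⟩
            have h5 := hs g ⟨y, h4⟩
            rw [h2] at h5
            exact h5.symm
          · have h4 : y ∈ Bg k p e A := ⟨hy, hyA⟩
            have h5 := hβ g ⟨y, h4⟩
            rw [h1] at h5
            exact h5.symm
        exact Subtype.ext h3)
      (by
        intro g
        obtain ⟨θ, h1, _, h2⟩ := hAff p k e he hpe L A hA d lab hlab g g.2
        refine ⟨θ, h1, fun y y' => ?_⟩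
        rw [hlb, hlb, hlb, hlb, hβ, hβ]
        exact h2 y y.2 y' y'.2)
      (by
        intro y y'
        obtain ⟨σ, h1, h2⟩ := hoB y y.2 y' y'.2
        exact ⟨⟨σ, h1⟩, Subtype.ext h2⟩)
      (by
        intro y y'
        obtain ⟨σ, h1, h2⟩ := hoS y y.2 y' y'.2
        exact ⟨⟨σ, h1⟩, Subtype.ext h2⟩)
      (by
        intro g hg
        obtain ⟨h1, h2⟩ := hΘ g hg
        refine ⟨?_, fun y y' => ?_⟩
        · ext y
          exact h1 y y.2
        · rw [hlb, hlb, hlb, hlb, hβ, hβ]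
          exact h2 y y.2 y' y'.2)
      hord
  refine ⟨τ, c, ?_, ?_, ?_, ?_, ?_, ?_, ?_, ?_, ?_, ?_⟩
  · have h1 : (⊤ : Subgroup (A.decompositionSubgroup (RatFunc k))).map
        (A.decompositionSubgroup (RatFunc k)).subtype = A.decompositionSubgroup (RatFunc k) := by
      rw [← MonoidHom.range_eq_map, Subgroup.range_subtype]
    rw [← hgen, Subgroup.map_sup, MonoidHom.map_zpowers, MonoidHom.map_zpowers] at h1
    exact h1.symm
  · rw [Subgroup.orderOf_coe]; exact hoτ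
  · intro y hy
    have h1 := hs τ ⟨y, hy⟩
    rw [hsτ] at h1
    exact h1.symm
  · intro y hy h1
    exact hβτ ⟨y, hy⟩ (Subtype.ext h1)
  · intro y hy y' hy'
    obtain ⟨m, hm⟩ := hβt ⟨y, hy⟩ ⟨y', hy'⟩
    refine ⟨m, ?_⟩
    have h1 := AFld_act_pow (A.decompositionSubgroup (RatFunc k)) (Bg k p e A) hBst τ m ⟨y, hy⟩
    rw [← h1]
    exact congrArg Subtype.val hm
  · rw [Subgroup.orderOf_coe]; exact hoc
  · obtain ⟨a, ha⟩ := hnor
    exact ⟨a, by
      have h1 := congrArg (Subtype.val) ha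
      simpa using h1⟩
  · obtain ⟨y, hy⟩ := hfix
    exact ⟨y, y.2, congrArg Subtype.val hy⟩
  · intro y hy y' hy'
    obtain ⟨m, hm⟩ := hst ⟨y, hy⟩ ⟨y', hy'⟩
    refine ⟨m, ?_⟩
    have h1 := AFld_act_pow (A.decompositionSubgroup (RatFunc k)) (Sm k p e A) hSst c m ⟨y, hy⟩
    rw [← h1]
    exact congrArg Subtype.val hm
  · intro h1 m hm
    refine he1 h1 m (Subtype.ext ?_)
    simpa using hm

end MP7b0bad.AnT
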