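import Pool.Agent.Work.MP_7b0bad_ag.AnT.Stmts

set_option autoImplicit false

/-!
# Block AnT, item AGrp: the group theory of the decomposition group at infinity
-/

namespace MP7b0bad.AnT

/-- an element of order `p` in `kˣ` is trivial in characteristic `p` -/
theorem AGrp_unit {p : ℕ} [Fact p.Prime] {k : Type} [Field k] [CharP k p] (z : kˣ)
    (hz : z ^ p = 1) : z = 1 := by
  have h1 : ((z : k) - 1) ^ p = 0 := by
    rw [sub_pow_char, one_pow]
    have : (z : k) ^ p = 1 := by
      have := congrArg Units.val hz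
      simpa using this
    rw [this, sub_self]
  have h2 : (z : k) - 1 = 0 := pow_eq_zero_iff (Fact.out : p.Prime).ne_zero |>.1 h1
  ext
  simpa using sub_eq_zero.1 h2

/-- the number of elements of the image of a character to `kˣ` is prime to `p` -/
theorem AGrp_card {p : ℕ} [Fact p.Prime] {k : Type} [Field k] [CharP k p] {D : Type} [Group D]
    [Finite D] (Θ : D →* kˣ) : ¬ p ∣ Nat.card Θ.range := by
  intro h
  have : Finite Θ.range := Set.finite_range Θ
  obtain ⟨x, hx⟩ := exists_prime_orderOf_dvd_card' p h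
  have h1 : x ^ p = 1 := by rw [← hx]; exact pow_orderOf_eq_one x
  have h2 : (x : kˣ) = 1 := AGrp_unit (x : kˣ) (by
    have := congrArg Subtype.val h1
    simpa using this)
  have h3 : x = 1 := Subtype.ext h2
  rw [h3, orderOf_one] at hx
  exact (Fact.out : p.Prime).one_lt.ne hx

section

variable {p : ℕ} [Fact p.Prime] {D B : Type} [Group D] (β : D →* Equiv.Perm B) (lab : B ≃ ZMod p)

/-- linear part of the affine map -/
def AGrp_th (g : D) : ZMod p := lab (β g (lab.symm 1)) - lab (β g (lab.symm 0))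

/-- translation part of the affine map -/
def AGrp_b (g : D) : ZMod p := lab (β g (lab.symm 0))

variable (h2 : ∀ g, ∃ θ : ZMod p, θ ≠ 0 ∧
  ∀ y y', lab (β g y) - lab (β g y') = θ * (lab y - lab y'))
include h2

theorem AGrp_aff (g : D) (y : B) :
    lab (β g y) = AGrp_th β lab g * lab y + AGrp_b β lab g := by
  obtain ⟨θ, -, hθ⟩ := h2 g
  have e1 := hθ (lab.symm 1) (lab.symm 0)
  have e2 := hθ y (lab.symm 0)
  rw [Equiv.apply_symm_apply, Equiv.apply_symm_apply, sub_zero, mul_one] at e1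
  rw [Equiv.apply_symm_apply, sub_zero] at e2
  have e3 : AGrp_th β lab g = θ := e1
  rw [e3]
  unfold AGrp_b
  linear_combination e2

theorem AGrp_ne (g : D) : AGrp_th β lab g ≠ 0 := by
  obtain ⟨θ, h0, hθ⟩ := h2 g
  have e1 := hθ (lab.symm 1) (lab.symm 0)
  rw [Equiv.apply_symm_apply, Equiv.apply_symm_apply, sub_zero, mul_one] at e1
  have e3 : AGrp_th β lab g = θ := e1
  rwa [e3]

theorem AGrp_bmul (g h : D) :
    AGrp_b β lab (g * h) = AGrp_th β lab g * AGrp_b β lab h + AGrp_b β lab g := by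
  have := AGrp_aff β lab h2 g (β h (lab.symm 0))
  unfold AGrp_b at this ⊢
  rw [map_mul]
  exact this

theorem AGrp_thmul (g h : D) :
    AGrp_th β lab (g * h) = AGrp_th β lab g * AGrp_th β lab h := by
  have e1 := AGrp_aff β lab h2 g (β h (lab.symm 1))
  have e2 := AGrp_aff β lab h2 g (β h (lab.symm 0))
  have e3 : AGrp_th β lab (g * h)
      = lab (β g (β h (lab.symm 1))) - lab (β g (β h (lab.symm 0))) := by
    unfold AGrp_th
    rw [map_mul]
    rfl
  have e4 : AGrp_th β lab h = lab (β h (lab.symm 1)) - lab (β h (lab.symm 0)) := rfl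
  rw [e3, e1, e2, e4]
  ring

/-- powers of a translation -/
theorem AGrp_pow {g : D} (hg : AGrp_th β lab g = 1) (n : ℕ) :
    AGrp_th β lab (g ^ n) = 1 ∧ AGrp_b β lab (g ^ n) = n * AGrp_b β lab g := by
  induction n with
  | zero =>
    rw [pow_zero]
    constructor
    · unfold AGrp_th
      simp
    · unfold AGrp_b
      simp
  | succ n ih =>
    rw [pow_succ]
    constructor
    · rw [AGrp_thmul β lab h2, ih.1, hg, mul_one]
    · rw [AGrp_bmul β lab h2, ih.1, ih.2]
      push_cast
      ring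

/-- a translation of order prime to `p` is trivial -/
theorem AGrp_triv {g : D} (hg : AGrp_th β lab g = 1) {n : ℕ} (hn : ¬ p ∣ n) (hgn : g ^ n = 1) :
    AGrp_b β lab g = 0 := by
  have h := (AGrp_pow β lab h2 hg n).2
  rw [hgn] at h
  have h0 : AGrp_b β lab (1 : D) = 0 := by
    unfold AGrp_b
    simp
  rw [h0] at h
  have hn' : (n : ZMod p) ≠ 0 := by
    intro h'
    exact hn ((ZMod.natCast_eq_zero_iff n p).1 h')
  rcases mul_eq_zero.1 h.symm with h | h
  · exact absurd h hn'
  · exact h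

end

/-- the group theory -/
theorem prf_AGrp : AGrp := by
  intro p _ k _ _ e D B S _ _ _ β σ lab Θ hp2 he hS h1 h2 hB hSt h4 h5
  have hpp : p.Prime := Fact.out
  have : Finite B := Finite.of_equiv _ lab.symm
  have : Finite Θ.range := Set.finite_range Θ
  have hcardB : Nat.card B = p := by
    rw [Nat.card_congr lab, Nat.card_zmod]
  -- `p` divides the order of `D`
  have hpD : p ∣ Nat.card D := by
    let _ : MulAction D B := MulAction.compHom B β
    have : MulAction.IsPretransitive D B := ⟨hB⟩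
    rw [← hcardB, ← MulAction.index_stabilizer_of_transitive D (lab.symm 0)]
    exact Subgroup.index_dvd_card _
  have hr := AGrp_card (p := p) Θ
  set r := Nat.card Θ.range with hrdef
  have hcardD : Nat.card D = r * Nat.card Θ.ker := by
    rw [Subgroup.card_eq_card_quotient_mul_card_subgroup Θ.ker,
      Nat.card_congr (QuotientGroup.quotientKerEquivRange Θ).toEquiv]
  have hpN : p ∣ Nat.card Θ.ker := by
    rw [hcardD] at hpD
    exact (hpp.dvd_mul.1 hpD).resolve_left hr
  -- elements of the kernel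
  have hNth : ∀ g ∈ Θ.ker, AGrp_th β lab g = 1 := by
    intro g hg
    have := (h4 g hg).2 (lab.symm 1) (lab.symm 0)
    rw [Equiv.apply_symm_apply, Equiv.apply_symm_apply, sub_zero] at this
    exact this
  have hNσ : ∀ g ∈ Θ.ker, σ g = 1 := fun g hg => (h4 g hg).1
  have hβ1 : ∀ g, AGrp_th β lab g = 1 → AGrp_b β lab g = 0 → β g = 1 := by
    intro g ht hb
    ext y
    have := AGrp_aff β lab h2 g y
    rw [ht, hb, one_mul, add_zero] at this
    exact lab.injective this
  have hNinj : ∀ g ∈ Θ.ker, AGrp_b β lab g = 0 → g = 1 := fun g hg hb =>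
    h1 g (hβ1 g (hNth g hg) hb) (hNσ g hg)
  have hNcard : Nat.card Θ.ker ≤ p := by
    have hinj : Function.Injective fun g : Θ.ker => AGrp_b β lab (g : D) := by
      intro g h hgh
      have hgh' : AGrp_b β lab (g : D) = AGrp_b β lab (h : D) := hgh
      have e1 := AGrp_bmul β lab h2 ((h : D)⁻¹) (g : D)
      have e2 := AGrp_bmul β lab h2 ((h : D)⁻¹) (h : D)
      rw [inv_mul_cancel] at e2
      have h0 : AGrp_b β lab (1 : D) = 0 := by
        unfold AGrp_b
        simp
      rw [h0] at e2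
      rw [hgh', ← e2] at e1
      have h3 := hNinj _ (Θ.ker.mul_mem (Θ.ker.inv_mem h.2) g.2) e1
      exact Subtype.ext (inv_mul_eq_one.1 h3).symm
    have := Nat.card_le_card_of_injective _ hinj
    rwa [Nat.card_zmod] at this
  have hNp : Nat.card Θ.ker = p := by
    refine le_antisymm hNcard ?_
    exact Nat.le_of_dvd Nat.card_pos hpN
  obtain ⟨τ', hτ'⟩ := exists_prime_orderOf_dvd_card' p hpN
  obtain ⟨τ, hτN⟩ := τ'
  have hτo : orderOf τ = p := by
    rw [← hτ', Subgroup.orderOf_mk]
  have hNz : Subgroup.zpowers τ = Θ.ker := by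
    refine Subgroup.eq_of_le_of_card_ge ?_ ?_
    · rw [Subgroup.zpowers_le]
      exact hτN
    · rw [Nat.card_zpowers, hτo, hNp]
  have hτ1 : τ ≠ 1 := by
    intro h
    rw [h, orderOf_one] at hτo
    exact hpp.one_lt.ne hτo
  have hbτ : AGrp_b β lab τ ≠ 0 := fun h => hτ1 (hNinj τ hτN h)
  have hθτ := hNth τ hτN
  -- the complement
  obtain ⟨q, hq⟩ := IsCyclic.exists_monoid_generator (α := Θ.range)
  obtain ⟨q, g, rfl⟩ := q
  have hgen : ∀ x : D, ∃ m : ℕ, Θ x = Θ g ^ m := by
    intro x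
    obtain ⟨m, hm⟩ := hq ⟨Θ x, x, rfl⟩
    refine ⟨m, ?_⟩
    have := congrArg Subtype.val hm
    simpa using this.symm
  have hgo : Θ g ^ r = 1 := by
    have h := pow_card_eq_one' (G := Θ.range) (x := ⟨Θ g, g, rfl⟩)
    have h' := congrArg Subtype.val h
    rw [SubmonoidClass.coe_pow] at h'
    exact h'
  have hcop : Nat.Coprime p r := (Nat.Prime.coprime_iff_not_dvd hpp).2 hr
  have hr0 : 0 < r := Nat.card_pos
  set c := g ^ p with hc
  have hcr : c ^ r = 1 := by
    have h : g ^ r ∈ Θ.ker := by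
      rw [MonoidHom.mem_ker, map_pow, hgo]
    have h3 : (g ^ r) ^ p = 1 := by
      have h6 := pow_card_eq_one' (G := Θ.ker) (x := ⟨g ^ r, h⟩)
      have := congrArg Subtype.val h6
      rw [hNp] at this
      simpa using this
    rw [hc, ← pow_mul, mul_comm, pow_mul, h3]
  have hcgen : ∀ x : D, ∃ m : ℕ, Θ x = Θ c ^ m := by
    intro x
    obtain ⟨m, hm⟩ := hgen x
    obtain ⟨u, hu⟩ := exists_pow_eq_self_of_coprime (x := Θ g) (n := p)
      (Nat.Coprime.coprime_dvd_right (orderOf_dvd_of_pow_eq_one hgo) hcop)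
    refine ⟨u * m, ?_⟩
    rw [hm, hc, map_pow, pow_mul, hu]
  have hco : ¬ p ∣ orderOf c := fun h => hr (h.trans (orderOf_dvd_of_pow_eq_one hcr))
  have hdec : ∀ x : D, ∃ (n : D) (m : ℕ), n ∈ Θ.ker ∧ x = n * c ^ m := by
    intro x
    obtain ⟨m, hm⟩ := hcgen x
    refine ⟨x * (c ^ m)⁻¹, m, ?_, by group⟩
    rw [MonoidHom.mem_ker, map_mul, map_inv, map_pow, hm, mul_inv_cancel]
  have hfp : AGrp_th β lab c = 1 → AGrp_b β lab c = 0 := fun h =>
    AGrp_triv β lab h2 h hr hcr
  refine ⟨τ, c, ?_, hτo, hNσ τ hτN, ?_, ?_, hco, ?_, ?_, ?_, ?_⟩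
  · rw [eq_top_iff]
    intro x _
    obtain ⟨n, m, hn, rfl⟩ := hdec x
    rw [← hNz] at hn
    exact Subgroup.mul_mem_sup hn (Subgroup.npow_mem_zpowers c m)
  · intro y hy
    have := AGrp_aff β lab h2 τ y
    rw [hy, hθτ, one_mul] at this
    exact hbτ (by linear_combination -this)
  · intro y y'
    refine ⟨((lab y' - lab y) / AGrp_b β lab τ).val, ?_⟩
    apply lab.injective
    have h6 := AGrp_aff β lab h2 (τ ^ ((lab y' - lab y) / AGrp_b β lab τ).val) y
    have h7 := AGrp_pow β lab h2 hθτ ((lab y' - lab y) / AGrp_b β lab τ).val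
    rw [h7.1, h7.2, map_pow, one_mul, ZMod.natCast_zmod_val] at h6
    rw [h6, div_mul_cancel₀ _ hbτ]
    ring
  · have h6 : c * τ * c⁻¹ ∈ Subgroup.zpowers τ := by
      rw [hNz]
      exact (inferInstance : Θ.ker.Normal).conj_mem τ hτN c
    rw [← mem_powers_iff_mem_zpowers] at h6
    obtain ⟨a, ha⟩ := h6
    exact ⟨a, ha.symm⟩
  · by_cases ht : AGrp_th β lab c = 1
    · refine ⟨lab.symm 0, ?_⟩
      rw [hβ1 c ht (hfp ht)]
      rfl
    · refine ⟨lab.symm (AGrp_b β lab c / (1 - AGrp_th β lab c)), ?_⟩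
      apply lab.injective
      rw [AGrp_aff β lab h2 c, Equiv.apply_symm_apply]
      have h6 : 1 - AGrp_th β lab c ≠ 0 := fun h => ht (sub_eq_zero.1 h).symm
      field_simp
      ring
  · intro y y'
    obtain ⟨x, hx⟩ := hSt y y'
    obtain ⟨n, m, hn, rfl⟩ := hdec x
    refine ⟨m, ?_⟩
    rw [map_mul, hNσ n hn, one_mul, map_pow] at hx
    exact hx
  · intro he1 m hm
    have hth : AGrp_th β lab (c ^ m) = 1 := by
      have e1 := AGrp_bmul β lab h2 (c ^ m) τ
      have e2 := AGrp_bmul β lab h2 τ (c ^ m)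
      rw [hm, e2, hθτ, one_mul] at e1
      have h6 : (AGrp_th β lab (c ^ m) - 1) * AGrp_b β lab τ = 0 := by
        linear_combination -e1
      rcases mul_eq_zero.1 h6 with h | h
      · exact sub_eq_zero.1 h
      · exact absurd h hbτ
    have hb0 : AGrp_b β lab (c ^ m) = 0 := AGrp_triv β lab h2 hth hr (by
      rw [← pow_mul, mul_comm, pow_mul, hcr, one_pow])
    have hσ1 : σ (c ^ m) = 1 := by
      have hS1 : Nat.card S = 1 := by rw [hS, he1]
      have := (Nat.card_eq_one_iff_unique.1 hS1).1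
      ext y
      exact Subsingleton.elim _ _
    have hcm : c ^ m = 1 := h1 _ (hβ1 _ hth hb0) hσ1
    have hrm : r ∣ m := by
      have h6 : orderOf (Θ c) = r := by
        have h7 : Subgroup.zpowers (Θ c) = Θ.range := by
          refine le_antisymm ?_ ?_
          · rw [Subgroup.zpowers_le]
            exact ⟨c, rfl⟩
          · rintro _ ⟨x, rfl⟩
            obtain ⟨m, hm⟩ := hcgen x
            rw [hm]
            exact Subgroup.npow_mem_zpowers _ _
        rw [← Nat.card_zpowers, h7]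
      rw [← h6]
      refine orderOf_dvd_of_pow_eq_one ?_
      rw [← map_pow, hcm, map_one]
    refine dvd_trans ?_ hrm
    rw [hcardD, hNp, he1] at h5
    have h6 : p - 1 ∣ 2 * r := by
      have h7 : p * (p - 1) ∣ p * (2 * r) := by
        have : p * (2 * r) = (1 + 1) * (r * p) := by ring
        rw [this]
        exact h5
      exact Nat.dvd_of_mul_dvd_mul_left hpp.pos h7
    obtain ⟨s, hs⟩ : ∃ s, p - 1 = 2 * s := by
      have := hpp.eq_two_or_odd
      exact ⟨(p - 1) / 2, by omega⟩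
    rw [hs] at h6 ⊢
    rw [Nat.mul_div_cancel_left s two_pos]
    exact Nat.dvd_of_mul_dvd_mul_left two_pos h6

end MP7b0bad.AnT
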