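import Pool.Agent.Work.MP_7b0bad_ag.AnT.Stmts
import Pool.Agent.Work.MP_7b0bad_ag.SnT.SCharE

set_option autoImplicit false

/-!
# Block AnT: the kernel of the action of the decomposition group
-/

open Polynomial Pointwise

namespace MP7b0bad.AnT

open SnT (cc xx rp)

/-- if `u` has value `1` then `σ u ≡ u` for `σ` in the decomposition group -/
theorem AKer_res {k : Type} [Field k] [IsAlgClosed k] {L : Type} [Field L]
    [Algebra (RatFunc k) L] [FiniteDimensional (RatFunc k) L] (A : ValuationSubring L)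
    (hA : AtInfty (k := k) A) (σ : L ≃ₐ[RatFunc k] L) (hσ : σ • A = A) (u : L)
    (hu : A.valuation u = 1) : A.valuation (σ u / u - 1) < 1 := by
  have hu0 : u ≠ 0 := (Valuation.ne_zero_iff _).1 (by rw [hu]; exact one_ne_zero)
  obtain ⟨c, hc⟩ := prf_F6 prf_F3 k L A hA u ((A.valuation_le_one_iff _).1 hu.le)
  rw [A.mem_nonunits_iff] at hc
  have e2 : σ (cc k L c) = cc k L c := σ.commutes _
  have h1 : A.valuation (σ (u - cc k L c)) < 1 := (SnT.SCharE_lt A σ hσ _).2 hc
  rw [map_sub σ, e2] at h1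
  have h2 : A.valuation (σ u - u) < 1 := by
    have h3 : σ u - u = (σ u - cc k L c) - (u - cc k L c) := by ring
    rw [h3]
    exact A.valuation.map_sub_lt h1 hc
  have h4 : σ u / u - 1 = (σ u - u) / u := by
    field_simp
  rw [h4, map_div₀, hu, div_one]
  exact h2

theorem prf_AKer (hVal : AVal) (hTame : ATame) (hAff : AAff) : AKer := by
  intro p _ k _ _ _ e he hpe L _ _ _ A hA d lab hLb σ hσ hy hd
  obtain ⟨y₀, hy₀, hσ₀⟩ := hy
  rw [A.mem_nonunits_iff] at hσ₀ hd
  have hv := (hVal p k e he L A hA).2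
  have hX : 1 < A.valuation (xx k L) := F3_X hA
  have hX0 : A.valuation (xx k L) ≠ 0 := (zero_lt_one.trans hX).ne'
  constructor
  · intro y hy
    obtain ⟨hy0, hvy⟩ := hv y hy
    obtain ⟨hy₀0, hvy₀⟩ := hv y₀ hy₀
    have hu : A.valuation (y / y₀) = 1 := by
      have h1 : A.valuation (y / y₀) ^ e = 1 := by
        rw [map_div₀, div_pow, div_eq_one_iff_eq]
        · exact mul_right_cancel₀ hX0 (hvy.trans hvy₀.symm)
        · exact pow_ne_zero _ ((Valuation.ne_zero_iff _).2 hy₀0)
      exact (pow_eq_one_iff_left (by omega)).1 h1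
    have h1 := AKer_res A hA σ hσ _ hu
    have hσu : A.valuation (σ (y / y₀) / (y / y₀)) = 1 := by
      rw [map_div₀, SnT.SCharE_one A σ hσ _ hu, hu, div_one]
    have hσy₀ : σ y₀ ≠ 0 := by
      rw [Ne, map_eq_zero_iff _ σ.injective]
      exact hy₀0
    have e1 : σ y / y - 1 = (σ (y / y₀) / (y / y₀)) * (σ y₀ / y₀ - 1) +
        (σ (y / y₀) / (y / y₀) - 1) := by
      rw [map_div₀ σ]
      field_simp
      ring
    have h2 : A.valuation (σ y / y - 1) < 1 := by
      rw [e1]
      refine A.valuation.map_add_lt ?_ h1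
      rw [map_mul, hσu, one_mul]
      exact hσ₀
    have hSm : σ y ∈ Sm k p e A := by
      refine ⟨SnT.rp_mem _ σ y hy.1, ?_⟩
      rw [A.mem_nonunits_iff]
      exact (SnT.SCharE_lt A σ hσ _).2 ((A.mem_nonunits_iff).1 hy.2)
    exact hTame p k e he hpe L A hA y hy (σ y) hSm ((A.mem_nonunits_iff).2 h2)
  · obtain ⟨θ, -, hθd, hθ⟩ := hAff p k e he hpe L A hA d lab hLb σ hσ
    rw [A.mem_nonunits_iff] at hθd
    have hθ1 : θ = 1 := by
      by_contra hne
      have hc : ((θ.val : ℕ) : k) - 1 ≠ 0 := by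
        intro h0
        apply hne
        have h1 : ((θ.val : ℕ) : k) = ((1 : ℕ) : k) := by
          rw [Nat.cast_one]
          exact sub_eq_zero.1 h0
        rw [CharP.natCast_eq_natCast k p] at h1
        have h2 := (ZMod.natCast_eq_natCast_iff _ _ _).2 h1
        rw [ZMod.natCast_zmod_val, Nat.cast_one] at h2
        exact h2
      have h3 : A.valuation (cc k L (((θ.val : ℕ) : k) - 1)) = 1 := F3_C hA _ hc
      have h4 : cc k L (((θ.val : ℕ) : k) - 1) =
          (σ d / d - 1) - (σ d / d - ((θ.val : ℕ) : L)) := by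
        rw [map_sub, map_natCast, map_one]
        ring
      rw [h4] at h3
      have h5 := A.valuation.map_sub_lt hd hθd
      rw [h3] at h5
      exact lt_irrefl _ h5
    intro y hy y' hy'
    rw [hθ y hy y' hy', hθ1, one_mul]

end MP7b0bad.AnT
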