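import Pool.Agent.Work.MP_7b0bad_ag.AnT.Stmts
import Pool.Agent.Work.MP_7b0bad_ag.Bd.B03

set_option autoImplicit false

/-!
# Block AnT, item ALab (helper85): labels of the big roots
-/

open Polynomial Pointwise

namespace MP7b0bad.AnT

open SnT (cc xx rp)

/-- `a.val` in `L` is the image of `a` under the ring homomorphism from `ZMod p` -/
theorem ALab_cast {p : ℕ} [Fact p.Prime] (L : Type) [Field L] [CharP L p] (a : ZMod p) :
    ((a.val : ℕ) : L) = ZMod.castHom (dvd_refl p) L a := by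
  rw [ZMod.castHom_apply, ZMod.natCast_val]

theorem ALab_sub {p : ℕ} [Fact p.Prime] (L : Type) [Field L] [CharP L p] (a b : ZMod p) :
    (((a - b).val : ℕ) : L) = ((a.val : ℕ) : L) - ((b.val : ℕ) : L) := by
  rw [ALab_cast, ALab_cast, ALab_cast, map_sub]

/-- nonzero constants are units -/
theorem ALab_unit {p : ℕ} [Fact p.Prime] {k : Type} [Field k] [CharP k p] {L : Type} [Field L]
    [Algebra (RatFunc k) L] {A : ValuationSubring L} (hA : AtInfty (k := k) A) (a : ZMod p)
    (ha : a ≠ 0) : ((a.val : ℕ) : L) ∉ A.nonunits := by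
  have h1 : ((a.val : ℕ) : k) ≠ 0 := by
    intro h
    have h2 := (CharP.cast_eq_zero_iff k p a.val).1 h
    have h3 : a.val = 0 := Nat.eq_zero_of_dvd_of_lt h2 a.val_lt
    exact ha ((ZMod.val_eq_zero a).1 h3)
  have h2 := F3_C hA _ h1
  rw [map_natCast, map_natCast] at h2
  rw [ValuationSubring.mem_nonunits_iff, h2]
  exact lt_irrefl _

theorem ALab_nsub {L : Type} [Field L] {A : ValuationSubring L} {u v : L} (hu : u ∈ A.nonunits)
    (hv : v ∈ A.nonunits) : u - v ∈ A.nonunits := by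
  rw [ValuationSubring.mem_nonunits_iff] at hu hv ⊢
  exact (Valuation.map_sub A.valuation u v).trans_lt (max_lt hu hv)

theorem prf_ALab (hCount : ACount) (hDif : ADif) : ALab := by
  intro p hp k _ hk e he hpe L _ _ _ A hA
  have hcL : CharP L p := by
    have : CharP (RatFunc k) p := charP_of_injective_algebraMap (algebraMap k (RatFunc k)).injective p
    exact charP_of_injective_algebraMap (algebraMap (RatFunc k) L).injective p
  obtain ⟨hB, -, -⟩ := hCount p k e he hpe L A hA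
  have hp1 : 1 < (Bg k p e A).ncard := by
    rw [hB]
    exact hp.out.one_lt
  have hfin : (Bg k p e A).Finite := Set.finite_of_ncard_pos (by omega)
  obtain ⟨y₀, y₁, h0, h1, h01⟩ := (Set.one_lt_ncard_iff hfin).1 hp1
  have hD := hDif p k e he hpe L A hA
  have hd : y₁ - y₀ ≠ 0 := sub_ne_zero.2 (Ne.symm h01)
  have hex : ∀ y ∈ Bg k p e A, ∃ a : ZMod p, (y - y₀) / (y₁ - y₀) - ((a.val : ℕ) : L) ∈ A.nonunits := by
    intro y hy
    by_cases h : y = y₀
    · refine ⟨0, ?_⟩
      rw [h, sub_self, zero_div, ZMod.val_zero, Nat.cast_zero, sub_zero,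
        ValuationSubring.mem_nonunits_iff, map_zero]
      exact zero_lt_one
    · obtain ⟨a, -, ha⟩ := (hD y₀ h0 y₁ h1 (Ne.symm h01)).2 y₀ h0 y hy h
      exact ⟨a, ha⟩
  choose! lab hlab using hex
  have hres : ∀ y ∈ Bg k p e A, ∀ y' ∈ Bg k p e A,
      (y - y') / (y₁ - y₀) - (((lab y - lab y').val : ℕ) : L) ∈ A.nonunits := by
    intro y hy y' hy'
    have h2 := ALab_nsub (hlab y hy) (hlab y' hy')
    rw [ALab_sub]
    have e1 : (y - y') / (y₁ - y₀) - (((lab y).val : ℕ) - ((lab y').val : ℕ) : L) =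
        (y - y₀) / (y₁ - y₀) - ((lab y).val : ℕ) -
          ((y' - y₀) / (y₁ - y₀) - ((lab y').val : ℕ)) := by ring
    rw [e1]
    exact h2
  have hinj : ∀ y ∈ Bg k p e A, ∀ y' ∈ Bg k p e A, lab y = lab y' → y = y' := by
    intro y hy y' hy' hyy
    by_contra hne
    obtain ⟨a, ha0, ha⟩ := (hD y₀ h0 y₁ h1 (Ne.symm h01)).2 y' hy' y hy hne
    have h2 := hres y hy y' hy'
    rw [hyy, sub_self, ZMod.val_zero, Nat.cast_zero, sub_zero] at h2
    have h3 := ALab_nsub h2 ha
    rw [sub_sub_cancel] at h3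
    exact ALab_unit hA a ha0 h3
  refine ⟨y₁ - y₀, lab, ⟨⟨y₀, h0, y₁, h1, Ne.symm h01, rfl⟩, hinj, ?_, hres⟩⟩
  have himg : (lab '' Bg k p e A).ncard = p := by
    rw [Set.InjOn.ncard_image (fun y hy y' hy' h => hinj y hy y' hy' h), hB]
  have huniv : lab '' Bg k p e A = Set.univ := by
    refine Set.eq_of_subset_of_ncard_le (Set.subset_univ _) ?_ Set.finite_univ
    rw [himg, Set.ncard_univ, Nat.card_zmod]
  intro a
  have h2 : a ∈ lab '' Bg k p e A := by
    rw [huniv]
    exact Set.mem_univ a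
  exact h2

end MP7b0bad.AnT
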