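import Pool.Agent.Work.MP_7b0bad_ag.AnT.Stmts
import Pool.Agent.Work.MP_7b0bad_ag.SnT.SOrb
import Pool.Agent.Work.MP_7b0bad_ag.SnT.SCharE

/-!
# Block AnT, item AOrd: the order of the decomposition group
-/

set_option autoImplicit false

open Polynomial Pointwise

namespace MP7b0bad.AnT

open SnT (cc xx rp)

theorem prf_AOrd (hDif : ADif) (hCount : ACount) : AOrd := by
  intro p _ k _ _ _ e he hpe L _ _ _ _ _ A hA
  have hp2 : 2 ≤ p := (Fact.out : p.Prime).two_le
  have hX : 1 < A.valuation (xx k L) := F3_X hA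
  have hX0 : A.valuation (xx k L) ≠ 0 := (zero_lt_one.trans hX).ne'
  obtain ⟨hc1, -, -⟩ := hCount p k e he hpe L A hA
  -- two big roots
  obtain ⟨y, y', hy, hy', hne⟩ : ∃ y y', y ∈ Bg k p e A ∧ y' ∈ Bg k p e A ∧ y' ≠ y := by
    have h1 : 1 < (Bg k p e A).ncard := by omega
    have hfin : (Bg k p e A).Finite := Set.finite_of_ncard_ne_zero (by omega)
    obtain ⟨a, b, ha, hb, hab⟩ := (Set.one_lt_ncard_iff hfin).1 h1
    exact ⟨a, b, ha, hb, hab.symm⟩
  have hval := (hDif p k e he hpe L A hA y hy y' hy' hne).1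
  set d : L := y' - y with hd
  have hd0 : d ≠ 0 := sub_ne_zero.2 hne
  set m : ℕ := p * (p - 1) with hm
  have hm1 : 1 ≤ m := Nat.mul_pos (by omega) (by omega)
  have hvm : A.valuation d ^ m = A.valuation (xx k L) ^ (-((e : ℤ) + 1)) := by
    have h1 : A.valuation d ^ m = (A.valuation (xx k L) ^ (e + 1))⁻¹ :=
      eq_inv_of_mul_eq_one_left hval
    have h2 : ((e : ℤ) + 1) = ((e + 1 : ℕ) : ℤ) := by push_cast; rfl
    rw [h1, zpow_neg, h2, zpow_natCast]
  have hr : A.valuation d ^ m =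
      A.valuation (algebraMap (RatFunc k) L ((RatFunc.X ^ (e + 1))⁻¹)) := by
    rw [map_inv₀, map_pow, map_inv₀, map_pow]
    exact eq_inv_of_mul_eq_one_left hval
  let _ : Fintype (A.decompositionSubgroup (RatFunc k)) := Fintype.ofFinite _
  set γ : L := ∏ σ : A.decompositionSubgroup (RatFunc k), (σ : L ≃ₐ[RatFunc k] L) d with hγ
  have hfix : ∀ σ : L ≃ₐ[RatFunc k] L, σ • A = A → σ γ = γ := by
    intro σ hσ
    rw [hγ, map_prod]
    exact Fintype.prod_equiv (Equiv.mulLeft (⟨σ, hσ⟩ : A.decompositionSubgroup (RatFunc k)))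
      (fun τ => σ ((τ : L ≃ₐ[RatFunc k] L) d)) (fun τ => (τ : L ≃ₐ[RatFunc k] L) d)
      fun τ => rfl
  have hvσ : ∀ σ : A.decompositionSubgroup (RatFunc k),
      A.valuation ((σ : L ≃ₐ[RatFunc k] L) d) = A.valuation d := by
    intro σ
    have h1 := SnT.SCharE_w A (σ : L ≃ₐ[RatFunc k] L) σ.2 d hd0 m hm1 _ hr
    rw [map_div₀] at h1
    exact (div_eq_one_iff_eq ((Valuation.ne_zero_iff _).2 hd0)).1 h1
  have hγv : A.valuation γ = A.valuation d ^ Nat.card (A.decompositionSubgroup (RatFunc k)) := by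
    rw [hγ, map_prod, Finset.prod_congr rfl fun σ _ => hvσ σ, Finset.prod_const,
      Finset.card_univ, Nat.card_eq_fintype_card]
  set N : ℕ := Nat.card (A.decompositionSubgroup (RatFunc k)) with hN
  have hγm : A.valuation γ ^ m = A.valuation (xx k L) ^ (-((e : ℤ) + 1) * N) := by
    rw [hγv, ← pow_mul, mul_comm, pow_mul, hvm, zpow_mul, zpow_natCast]
  obtain ⟨j, hj⟩ := SnT.SOrb_val A hA γ hfix m hm1 _ hγm
  rw [hj, ← zpow_natCast, ← zpow_mul] at hγm
  have h2 := SnT.SOrb_inj hX hγm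
  have h3 : (m : ℤ) ∣ (((e + 1) * N : ℕ) : ℤ) := by
    refine ⟨-j, ?_⟩
    push_cast
    linarith [mul_comm j (m : ℤ)]
  exact Int.natCast_dvd_natCast.1 h3

end MP7b0bad.AnT
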