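import Pool.Agent.Work.MP_7b0bad_ag.AnT.Stmts
import Pool.Agent.Work.MP_7b0bad_ag.Bd.B03

set_option autoImplicit false

/-!
# Block AnT, item ATame (helper21): small roots are separated by residues
-/

open Polynomial Pointwise

namespace MP7b0bad.AnT

open SnT (cc xx rp)

/-- powers of an element congruent to `1` are congruent to `1` -/
theorem ATame_pow {L : Type} [Field L] (A : ValuationSubring L) (ε : L) (hq : A.valuation ε < 1)
    (j : ℕ) : A.valuation ((1 + ε) ^ j - 1) < 1 := by
  induction j with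
  | zero => rw [pow_zero, sub_self, map_zero]; exact zero_lt_one
  | succ j ih =>
    have h2 : (1 + ε) ^ (j + 1) - 1 = (1 + ε) * ((1 + ε) ^ j - 1) + ε := by ring
    rw [h2]
    refine (A.valuation.map_add _ _).trans_lt (max_lt ?_ hq)
    rw [map_mul]
    have h3 : A.valuation (1 + ε) ≤ 1 := by
      refine (A.valuation.map_add _ _).trans (max_le ?_ hq.le)
      rw [map_one]
    calc A.valuation (1 + ε) * A.valuation ((1 + ε) ^ j - 1)
        ≤ 1 * A.valuation ((1 + ε) ^ j - 1) := mul_le_mul_left h3 _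
      _ = A.valuation ((1 + ε) ^ j - 1) := one_mul _
      _ < 1 := ih

/-- the geometric sum is congruent to the number of its terms -/
theorem ATame_sum {L : Type} [Field L] (A : ValuationSubring L) (ε : L) (hq : A.valuation ε < 1)
    (e : ℕ) (he : A.valuation ((e : ℕ) : L) = 1) :
    A.valuation (∑ j ∈ Finset.range e, (1 + ε) ^ j) = 1 := by
  have h5 : ∑ j ∈ Finset.range e, (1 + ε) ^ j =
      ((e : ℕ) : L) + ∑ j ∈ Finset.range e, ((1 + ε) ^ j - 1) := by
    rw [Finset.sum_sub_distrib, Finset.sum_const, Finset.card_range, nsmul_eq_mul]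
    ring
  rw [h5, Valuation.map_add_eq_of_lt_left, he]
  rw [he]
  exact Valuation.map_sum_lt _ one_ne_zero fun j _ => ATame_pow A ε hq j

theorem prf_ATame : ATame := by
  intro p _ k _ _ e he hpe L _ _ A hA y hy y' hy' hq
  obtain ⟨hyr, hyn⟩ := hy
  obtain ⟨hyr', hyn'⟩ := hy'
  rw [ValuationSubring.mem_nonunits_iff] at hyn hyn' hq
  have e1 := root_eq hyr
  have e2 := root_eq hyr'
  have hp0 : p ≠ 0 := (Fact.out : p.Prime).ne_zero
  have hy0 : y ≠ 0 := by
    intro h
    rw [h, zero_pow (by omega), zero_pow he.ne', mul_zero, zero_add] at e1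
    exact one_ne_zero e1
  have : CharP L p := charP_of_injective_ringHom (cc k L).injective p
  set ε : L := y' / y - 1 with hε
  have hz' : y' = y * (1 + ε) := by
    rw [hε]
    field_simp
    ring
  have e3 : (1 + ε) ^ e - 1 = y ^ (p + e) * (1 + ε) ^ e * ((1 + ε) ^ p - 1) := by
    have h1 : (y * (1 + ε)) ^ (p + e) + 1 = (y ^ (p + e) + 1) * (1 + ε) ^ e := by
      rw [← hz', e2, e1, hz', mul_pow]
      ring
    have h2 : (y * (1 + ε)) ^ (p + e) = y ^ (p + e) * (1 + ε) ^ e * (1 + ε) ^ p := by
      rw [mul_pow, pow_add (1 + ε)]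
      ring
    rw [h2] at h1
    linear_combination -h1
  have e4 : (1 + ε) ^ p - 1 = ε ^ p := by
    rw [add_pow_char (1 : L) ε p, one_pow]
    ring
  rw [e4] at e3
  have hek : ((e : ℕ) : k) ≠ 0 := by
    intro h
    exact hpe ((CharP.cast_eq_zero_iff k p e).1 h)
  have hev : A.valuation ((e : ℕ) : L) = 1 := by
    have h2 := F3_C hA _ hek
    rw [map_natCast, map_natCast] at h2
    exact h2
  have hL : A.valuation ((1 + ε) ^ e - 1) = A.valuation ε := by
    have h1 : (1 + ε) ^ e - 1 = (∑ j ∈ Finset.range e, (1 + ε) ^ j) * ε := by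
      have := geom_sum_mul (1 + ε) e
      rw [← this]
      ring
    rw [h1, map_mul, ATame_sum A ε hq e hev, one_mul]
  have h1e : A.valuation (1 + ε) ≤ 1 := by
    refine (A.valuation.map_add _ _).trans (max_le ?_ hq.le)
    rw [map_one]
  have hR : A.valuation (y ^ (p + e) * (1 + ε) ^ e * ε ^ p) ≤ A.valuation y * A.valuation ε := by
    rw [map_mul, map_mul, map_pow, map_pow, map_pow]
    have h1 : A.valuation y ^ (p + e) ≤ A.valuation y := by
      calc A.valuation y ^ (p + e) ≤ A.valuation y ^ 1 := pow_le_pow_right_of_le_one' hyn.le (by omega)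
        _ = A.valuation y := pow_one _
    have h2 : A.valuation (1 + ε) ^ e ≤ 1 := pow_le_one' h1e _
    have h3 : A.valuation ε ^ p ≤ A.valuation ε := by
      calc A.valuation ε ^ p ≤ A.valuation ε ^ 1 := pow_le_pow_right_of_le_one' hq.le (by omega)
        _ = A.valuation ε := pow_one _
    calc A.valuation y ^ (p + e) * A.valuation (1 + ε) ^ e * A.valuation ε ^ p
        ≤ A.valuation y * 1 * A.valuation ε := mul_le_mul' (mul_le_mul' h1 h2) h3
      _ = A.valuation y * A.valuation ε := by rw [mul_one]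
  rw [← e3, hL] at hR
  have hε0 : ε = 0 := by
    by_contra hne
    have h1 : 0 < A.valuation ε := by
      rw [zero_lt_iff]
      exact (Valuation.ne_zero_iff _).mpr hne
    have h2 : A.valuation y * A.valuation ε < 1 * A.valuation ε :=
      mul_lt_mul_of_pos_right hyn h1
    rw [one_mul] at h2
    exact absurd hR (not_le.mpr h2)
  rw [hε0, add_zero, mul_one] at hz'
  exact hz'

end MP7b0bad.AnT
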