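import Pool.Agent.Work.MP_7b0bad_ag.AnT.Stmts

/-!
# MP_7b0bad, project AnT: finite places are unramified
-/

set_option autoImplicit false

open Polynomial Pointwise

namespace MP7b0bad.AnT

open SnT (cc xx rp)

/-- two different roots with the same residue give a double root of the reduction -/
theorem AUnr_double {A κ : Type} [CommRing A] [IsDomain A] [CommRing κ] (r : A →+* κ)
    (F : A[X]) (y y' : A) (hy : F.eval y = 0) (hy' : F.eval y' = 0) (hne : y' ≠ y)
    (hr : r y' = r y) :
    (F.map r).eval (r y) = 0 ∧ (derivative (F.map r)).eval (r y) = 0 := by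
  obtain ⟨G, hG⟩ := dvd_iff_isRoot.2 (show F.IsRoot y from hy)
  have h1 : G.eval y' = 0 := by
    have h2 := hy'
    rw [hG, eval_mul, eval_sub, eval_X, eval_C] at h2
    rcases mul_eq_zero.1 h2 with h3 | h3
    · exact absurd (sub_eq_zero.1 h3) hne
    · exact h3
  have h2 : (G.map r).eval (r y) = 0 := by
    rw [← hr, eval_map_apply, h1, map_zero]
  have h3 : F.map r = (X - C (r y)) * G.map r := by
    rw [hG, Polynomial.map_mul, Polynomial.map_sub, map_X, map_C]
  constructor
  · rw [h3, eval_mul, eval_sub, eval_X, eval_C, sub_self, zero_mul]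
  · rw [h3, derivative_mul, eval_add, eval_mul, eval_mul, h2, eval_sub, eval_X, eval_C, sub_self,
      zero_mul, mul_zero, add_zero]

/-- the reduction has no double root -/
theorem AUnr_nodouble {p : ℕ} {e : ℕ} (he : 0 < e) (hpe : ¬ p ∣ e)
    {κ : Type} [CommRing κ] [CharP κ p] (x c : κ)
    (h0 : (X ^ (p + e) + 1 - C x * X ^ e : κ[X]).eval c = 0)
    (h1 : (derivative (X ^ (p + e) + 1 - C x * X ^ e : κ[X])).eval c = 0) : False := by
  obtain ⟨e, rfl⟩ : ∃ e' : ℕ, e = e' + 1 := ⟨e - 1, by omega⟩
  simp only [eval_sub, eval_add, eval_mul, eval_pow, eval_X, eval_one, eval_C] at h0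
  simp only [derivative_sub, derivative_add, derivative_one, derivative_X_pow, derivative_C_mul,
    eval_sub, eval_add, eval_mul, eval_pow, eval_X, eval_C, eval_zero, add_zero, eval_natCast] at h1
  have hp : ((p : ℕ) : κ) = 0 := CharP.cast_eq_zero κ p
  have h2 : p + (e + 1) - 1 = p + e := by omega
  have h3 : e + 1 - 1 = e := by omega
  rw [h2, h3] at h1
  push_cast at h1
  rw [hp, zero_add] at h1
  have h4 : ((e + 1 : ℕ) : κ) = 0 := by
    push_cast
    linear_combination ((e : κ) + 1) * h0 - c * h1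
  exact hpe ((CharP.cast_eq_zero_iff κ p (e + 1)).1 h4)

theorem prf_AUnr : AUnr := by
  intro p _ k _ _ e he hpe L _ _ _ A hk hx
  let cA : k →+* A := (cc k L).codRestrict A.toSubring hk
  let xA : A := ⟨xx k L, hx⟩
  let FR : A[X] := X ^ (p + e) + 1 - C xA * X ^ e
  have hp0 : 0 < p := (Fact.out : p.Prime).pos
  have hFm : FR.Monic := by
    have h1 : (X ^ (p + e) + 1 : A[X]).Monic := monic_X_pow_add (by
      rw [← C_1]
      exact degree_C_le.trans_lt (by exact_mod_cast (by omega : 0 < p + e)))
    refine Monic.sub_of_left h1 (degree_lt_degree ?_)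
    have h2 : (X ^ (p + e) + 1 : A[X]).natDegree = p + e := by
      rw [← C_1]
      exact natDegree_X_pow_add_C
    rw [h2]
    exact (natDegree_C_mul_le _ _).trans_lt (by rw [natDegree_X_pow]; omega)
  have hev : ∀ y : L, aeval y (FA k p e) = 0 → FR.eval₂ (algebraMap A L) y = 0 := by
    intro y hy
    rw [FA, SnT.aeval_FF] at hy
    simp only [eval₂_add, eval₂_pow, eval₂_X, eval₂_one] at hy
    simp only [FR, eval₂_sub, eval₂_mul, eval₂_C, eval₂_add, eval₂_pow, eval₂_X, eval₂_one]
    exact hy
  have hmem : ∀ y : L, aeval y (FA k p e) = 0 → y ∈ A := by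
    intro y hy
    obtain ⟨z, hz⟩ := IsIntegrallyClosed.isIntegral_iff.1
      (show IsIntegral A y from ⟨FR, hFm, hev y hy⟩)
    rw [← hz]
    exact z.2
  have hroot : ∀ y : A, aeval (y : L) (FA k p e) = 0 → FR.eval y = 0 := by
    intro y hy
    have h1 := hev y hy
    have h2 : FR.eval₂ (algebraMap A L) (algebraMap A L y) = 0 := h1
    rw [eval₂_at_apply] at h2
    exact (map_eq_zero_iff _ (IsFractionRing.injective A L)).1 h2
  have hchar : CharP (IsLocalRing.ResidueField A) p :=
    charP_of_injective_ringHom ((IsLocalRing.residue A).comp cA).injective p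
  rw [Subgroup.eq_bot_iff_forall]
  intro s hs
  have hs' : ∀ r : A, IsLocalRing.residue A (s • r) = IsLocalRing.residue A r := by
    intro r
    rw [IsLocalRing.ResidueField.residue_smul]
    have h3 : MulSemiringAction.toRingAut (A.decompositionSubgroup (RatFunc k))
        (IsLocalRing.ResidueField A) s = 1 := hs
    have h4 := RingEquiv.congr_fun h3 (IsLocalRing.residue A r)
    exact h4
  have hfix : ∀ y ∈ (FA k p e).rootSet L, (s : L ≃ₐ[RatFunc k] L) y = y := by
    intro y hy
    have h1 : aeval y (FA k p e) = 0 := (mem_rootSet.1 hy).2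
    have h2 : aeval ((s : L ≃ₐ[RatFunc k] L) y) (FA k p e) = 0 :=
      (mem_rootSet.1 (SnT.rp_mem _ (s : L ≃ₐ[RatFunc k] L) y hy)).2
    by_contra hne
    let yA : A := ⟨y, hmem y h1⟩
    have hsy : ((s • yA : A) : L) = (s : L ≃ₐ[RatFunc k] L) y := rfl
    have h3 := AUnr_double (IsLocalRing.residue A) FR yA (s • yA) (hroot yA h1)
      (hroot _ (by rw [hsy]; exact h2)) (fun h => hne (by rw [← hsy, h])) (hs' yA)
    have h4 : FR.map (IsLocalRing.residue A) =
        X ^ (p + e) + 1 - C (IsLocalRing.residue A xA) * X ^ e := by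
      simp only [FR, Polynomial.map_sub, Polynomial.map_add, Polynomial.map_mul, map_C,
        Polynomial.map_pow, map_X, Polynomial.map_one]
    rw [h4] at h3
    exact AUnr_nodouble he hpe _ _ h3.1 h3.2
  apply Subtype.ext
  have h5 : ((s : L ≃ₐ[RatFunc k] L) : L →ₐ[RatFunc k] L) = AlgHom.id (RatFunc k) L := by
    refine AlgHom.ext_of_adjoin_eq_top (IsSplittingField.adjoin_rootSet L (FA k p e)) ?_
    intro y hy
    exact hfix y hy
  ext y
  exact DFunLike.congr_fun h5 y

end MP7b0bad.AnT
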