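import Pool.Agent.Work.MP_7b0bad_ag.AnT.Stmts
import Pool.Agent.Work.MP_7b0bad_ag.Bd.B03

set_option autoImplicit false

/-!
# Block AnT, item AVal (helper85): values of the roots
-/

open Polynomial Pointwise

namespace MP7b0bad.AnT

open SnT (cc xx rp)

theorem AVal_big {k : Type} [Field k] {p e : ℕ} (he : 0 < e) {L : Type} [Field L]
    [Algebra (RatFunc k) L] {A : ValuationSubring L} {y : L} (hy : y ∈ Bg k p e A) :
    A.valuation y ^ p = A.valuation (xx k L) := by
  have h1 := root_eq hy.1
  have hv : 1 < A.valuation y := by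
    have h := hy.2
    rw [← A.valuation_le_one_iff, not_le] at h
    exact h
  have h2 : A.valuation 1 < A.valuation (y ^ (p + e)) := by
    rw [map_one, map_pow]
    exact one_lt_pow₀ hv (by omega)
  have h3 := congrArg A.valuation h1
  rw [Valuation.map_add_eq_of_lt_left _ h2, map_mul, map_pow, map_pow, pow_add] at h3
  exact mul_right_cancel₀ (pow_ne_zero e (zero_lt_one.trans hv).ne') h3

theorem AVal_small {k : Type} [Field k] {p e : ℕ} (he : 0 < e) {L : Type} [Field L]
    [Algebra (RatFunc k) L] {A : ValuationSubring L} {y : L} (hy : y ∈ Sm k p e A) :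
    y ≠ 0 ∧ A.valuation y ^ e * A.valuation (xx k L) = 1 := by
  have h1 := root_eq hy.1
  have hv : A.valuation y < 1 := (ValuationSubring.mem_nonunits_iff A).1 hy.2
  constructor
  · intro h0
    rw [h0, zero_pow (by omega), zero_pow (by omega), mul_zero, zero_add] at h1
    exact one_ne_zero h1
  · have h2 : A.valuation (y ^ (p + e)) < A.valuation 1 := by
      rw [map_one, map_pow]
      exact pow_lt_one₀ zero_le hv (by omega)
    have h3 := congrArg A.valuation h1
    rw [Valuation.map_add_eq_of_lt_right _ h2, map_mul, map_pow, map_one] at h3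
    rw [mul_comm]
    exact h3.symm

theorem prf_AVal : AVal := by
  intro p _ k _ _ e he L _ _ A _
  exact ⟨fun y hy => AVal_big he hy, fun y hy => AVal_small he hy⟩

end MP7b0bad.AnT
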