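import Pool.Agent.Work.MP_7b0bad_ag.AnT.AIrr
import Pool.Agent.Work.MP_7b0bad_ag.AnT.AUnr
import Pool.Agent.Work.MP_7b0bad_ag.AnT.AVal
import Pool.Agent.Work.MP_7b0bad_ag.AnT.ACount
import Pool.Agent.Work.MP_7b0bad_ag.AnT.ATame
import Pool.Agent.Work.MP_7b0bad_ag.AnT.ADif
import Pool.Agent.Work.MP_7b0bad_ag.AnT.ALab
import Pool.Agent.Work.MP_7b0bad_ag.AnT.AOrb
import Pool.Agent.Work.MP_7b0bad_ag.AnT.AAff
import Pool.Agent.Work.MP_7b0bad_ag.AnT.AKer
import Pool.Agent.Work.MP_7b0bad_ag.AnT.ABez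
import Pool.Agent.Work.MP_7b0bad_ag.AnT.ACh
import Pool.Agent.Work.MP_7b0bad_ag.AnT.AOrd
import Pool.Agent.Work.MP_7b0bad_ag.AnT.AGrp
import Pool.Agent.Work.MP_7b0bad_ag.AnT.AFld
import Pool.Agent.Work.MP_7b0bad_ag.AnT.AAsm

set_option autoImplicit false

/-!
# Block AnT: Abhyankar's covers, all items together
-/

namespace MP7b0bad.AnT

theorem all_ACount : ACount := prf_ACount prf_AIrr prf_AVal
theorem all_ADif : ADif := prf_ADif prf_AVal
theorem all_ALab : ALab := prf_ALab all_ACount all_ADif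
theorem all_AOrb : AOrb := prf_AOrb prf_AVal all_ACount
theorem all_AAff : AAff := prf_AAff all_ADif
theorem all_AKer : AKer := prf_AKer prf_AVal prf_ATame all_AAff
theorem all_ACh : ACh := prf_ACh prf_AVal all_ACount all_ADif all_AKer prf_ABez
theorem all_AOrd : AOrd := prf_AOrd all_ADif all_ACount
theorem all_AFld : AFld := prf_AFld all_ACount all_ALab all_AOrb all_AAff all_ACh all_AOrd prf_AGrp

/-- Abhyankar's covers -/
theorem all_AbMain : MP7b0bad.MT.AbMain := prf_AbMain prf_AIrr prf_AUnr all_ACount all_AFld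

end MP7b0bad.AnT
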