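import Pool.Agent.Work.MP_7b0bad_ag.MT.GStmts
import Pool.Agent.Work.MP_7b0bad_ag.SnT.SGal
import Pool.Agent.Work.MP_7b0bad_ag.SV.LAll

set_option autoImplicit false

/-!
# Abhyankar's covers `y^(p+e) - x y^e + 1 = 0`: from fields to permutations
-/

open Polynomial Pointwise

namespace MP7b0bad.AnT

open MP7b0bad.SnT

/-- the action of the Galois group on `Fin n` through a numbering of the roots -/
noncomputable def prm {K L : Type} [Field K] [Field L] [Algebra K L] (F : K[X]) {n : ℕ}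
    (ψ : Fin n ≃ F.rootSet L) : (L ≃ₐ[K] L) →* Equiv.Perm (Fin n) :=
  (ψ.symm.permCongrHom : Equiv.Perm (F.rootSet L) ≃* Equiv.Perm (Fin n)).toMonoidHom.comp (rp F)

theorem prm_apply {K L : Type} [Field K] [Field L] [Algebra K L] (F : K[X]) {n : ℕ}
    (ψ : Fin n ≃ F.rootSet L) (σ : L ≃ₐ[K] L) (i : Fin n) :
    prm F ψ σ i = ψ.symm (rp F σ (ψ i)) := rfl

theorem prm_val {K L : Type} [Field K] [Field L] [Algebra K L] (F : K[X]) {n : ℕ}
    (ψ : Fin n ≃ F.rootSet L) (σ : L ≃ₐ[K] L) (i : Fin n) :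
    ((ψ (prm F ψ σ i) : F.rootSet L) : L) = σ (ψ i : F.rootSet L) := by
  rw [prm_apply, Equiv.apply_symm_apply, rp_apply]

theorem prm_eq {K L : Type} [Field K] [Field L] [Algebra K L] (F : K[X]) {n : ℕ}
    (ψ : Fin n ≃ F.rootSet L) (σ : L ≃ₐ[K] L) (i j : Fin n) :
    prm F ψ σ i = j ↔ σ (ψ i : F.rootSet L) = (ψ j : F.rootSet L) := by
  rw [← prm_val]
  constructor
  · rintro rfl
    rfl
  · intro h
    exact ψ.injective (Subtype.ext h)

theorem prm_inj {K L : Type} [Field K] [Field L] [Algebra K L] (F : K[X])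
    [IsSplittingField K L F] {n : ℕ} (ψ : Fin n ≃ F.rootSet L) :
    Function.Injective (prm (L := L) F ψ) := by
  have h1 := SGal_inj (L := L) F
  exact (ψ.symm.permCongrHom).injective.comp h1

/-- the field side of the cover: `B` the big roots, `S` the small roots, `x` generates the wild
inertia group at the place `A` over infinity, `c` the tame part -/
structure Fld (p e : ℕ) (k : Type) [Field k] (L : Type) [Field L] [Algebra (RatFunc k) L]
    (F : (RatFunc k)[X]) (A : ValuationSubring L) (B S : Set L) (x c : L ≃ₐ[RatFunc k] L) :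
    Prop where
  deg : F.natDegree = p + e
  irr : Irreducible F
  sep : F.Separable
  unr : ∀ A' : ValuationSubring L, (∀ a : k, cc k L a ∈ A') → xx k L ∈ A' →
    ValuationSubring.inertiaSubgroup (RatFunc k) A' = ⊥
  inf : AtInfty (k := k) A
  dec : (ValuationSubring.inertiaSubgroup (RatFunc k) A).map
    (ValuationSubring.decompositionSubgroup (RatFunc k) A).subtype =
      Subgroup.zpowers x ⊔ Subgroup.zpowers c
  cov : ∀ y, y ∈ F.rootSet L ↔ y ∈ B ∨ y ∈ S
  dis : ∀ y ∈ B, y ∉ S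
  card : B.ncard = p
  xB : ∀ y ∈ B, ∀ y' ∈ B, ∃ m : ℕ, (x ^ m) y = y'
  xS : ∀ y ∈ S, x y = y
  cB : ∃ y ∈ B, c y = y
  cS : ∀ y ∈ S, ∀ y' ∈ S, ∃ m : ℕ, (c ^ m) y = y'
  ord : ¬ p ∣ orderOf c
  norm : ∃ a : ℕ, c * x * c⁻¹ = x ^ a
  e1 : e = 1 → ∀ m : ℕ, c ^ m * x = x * c ^ m → (p - 1) / 2 ∣ m

theorem occ_transfer {k L : Type} [Field k] [Field L] [Algebra (RatFunc k) L] {M : Type} [Group M]
    (ρ : (L ≃ₐ[RatFunc k] L) →* M) (hρ : Function.Injective ρ) (D : Subgroup (L ≃ₐ[RatFunc k] L)) :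
    ((D.map ρ).subgroupOf ρ.range).map (MonoidHom.ofInjective hρ).symm.toMonoidHom = D := by
  ext σ
  rw [Subgroup.mem_map]
  constructor
  · rintro ⟨h, hh, hσ⟩
    have h1 : (MonoidHom.ofInjective hρ) σ = h := by
      rw [← hσ]
      exact (MonoidHom.ofInjective hρ).apply_symm_apply h
    have h2 : ρ σ = (h : M) := by
      rw [← h1]
      rfl
    rw [Subgroup.mem_subgroupOf, ← h2, Subgroup.mem_map] at hh
    obtain ⟨τ, hτ, hτ'⟩ := hh
    rw [← hρ hτ']
    exact hτ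
  · intro hσ
    refine ⟨MonoidHom.ofInjective hρ σ, ?_, (MonoidHom.ofInjective hρ).symm_apply_apply σ⟩
    rw [Subgroup.mem_subgroupOf]
    exact ⟨σ, hσ, rfl⟩

theorem fld_main {p : ℕ} [hp : Fact p.Prime] {k : Type} [Field k] [IsAlgClosed k] {e : ℕ}
    {L : Type} [Field L] [Algebra (RatFunc k) L] [FiniteDimensional (RatFunc k) L]
    [IsGalois (RatFunc k) L] {F : (RatFunc k)[X]} [IsSplittingField (RatFunc k) L F]
    {A : ValuationSubring L} {B S : Set L} {x c : L ≃ₐ[RatFunc k] L}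
    (h : Fld p e k L F A B S x c) :
    ∃ (H : Subgroup (Equiv.Perm (Fin (p + e)))) (x c : Equiv.Perm (Fin (p + e))),
      x.IsCycle ∧ x.support.card = p ∧ ¬ p ∣ orderOf c ∧ (∃ a : ℕ, c * x * c⁻¹ = x ^ a) ∧
      (∃ i ∈ x.support, c i = i) ∧
      (∀ i, i ∉ x.support → ∀ j, j ∉ x.support → ∃ m : ℕ, (c ^ m) i = j) ∧
      (e = 1 → ∀ m : ℕ, c ^ m * x = x * c ^ m → (p - 1) / 2 ∣ m) ∧
      (∀ i j, ∃ h ∈ H, h i = j) ∧ MT.Rz k (Subgroup.zpowers x) c H := by
  classical
  have hprime : p.Prime := hp.out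
  -- numbering of the roots
  have hfin : Finite (F.rootSet L) := inferInstance
  have hcard : Nat.card (F.rootSet L) = p + e := by
    rw [← h.deg, Nat.card_eq_fintype_card]
    exact Polynomial.card_rootSet_eq_natDegree h.sep (IsSplittingField.splits L F)
  obtain ⟨ψ⟩ : Nonempty (Fin (p + e) ≃ F.rootSet L) := by
    rw [← hcard]
    exact ⟨(Finite.equivFin _).symm⟩
  have hpow : ∀ (σ : L ≃ₐ[RatFunc k] L) (m : ℕ) (i j : Fin (p + e)),
      ((prm F ψ σ) ^ m) i = j ↔ (σ ^ m) (ψ i : F.rootSet L) = (ψ j : F.rootSet L) := by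
    intro σ m i j
    rw [← map_pow]
    exact prm_eq F ψ (σ ^ m) i j
  have hinj := prm_inj (L := L) F ψ
  -- `x` moves the big roots
  have hxB : ∀ y ∈ B, x y ≠ y := by
    intro y hy hxy
    have h1 : ∀ m : ℕ, (x ^ m) y = y := by
      intro m
      induction m with
      | zero => rfl
      | succ m ih => rw [pow_succ, AlgEquiv.mul_apply, hxy, ih]
    have h2 : B = {y} := by
      ext z
      constructor
      · intro hz
        obtain ⟨m, hm⟩ := h.xB y hy z hz
        rw [h1] at hm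
        exact hm.symm
      · rintro rfl
        exact hy
    have h3 := h.card
    rw [h2, Set.ncard_singleton] at h3
    exact hprime.one_lt.ne h3
  have hsupp : ∀ i, i ∈ (prm F ψ x).support ↔ ((ψ i : F.rootSet L) : L) ∈ B := by
    intro i
    rw [Equiv.Perm.mem_support, Ne, prm_eq]
    constructor
    · intro h1
      rcases (h.cov _).1 (ψ i).2 with h2 | h2
      · exact h2
      · exact absurd (h.xS _ h2) h1
    · intro h1
      exact hxB _ h1
  have hnsupp : ∀ i, i ∉ (prm F ψ x).support → ((ψ i : F.rootSet L) : L) ∈ S := by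
    intro i hi
    rcases (h.cov _).1 (ψ i).2 with h2 | h2
    · exact absurd ((hsupp i).2 h2) hi
    · exact h2
  obtain ⟨y₀, hy₀, hcy₀⟩ := h.cB
  have hlift : ∀ y ∈ B, ∃ i, ((ψ i : F.rootSet L) : L) = y := by
    intro y hy
    obtain ⟨i, hi⟩ := ψ.surjective ⟨y, (h.cov y).2 (Or.inl hy)⟩
    exact ⟨i, congrArg Subtype.val hi⟩
  obtain ⟨i₀, hi₀⟩ := hlift y₀ hy₀
  refine ⟨(prm F ψ).range, prm F ψ x, prm F ψ c, ?_, ?_, ?_, ?_, ?_, ?_, ?_, ?_, ?_, ?_⟩
  · -- cycle
    refine ⟨i₀, ?_, ?_⟩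
    · have h1 := (hsupp i₀).2 (by rw [hi₀]; exact hy₀)
      exact Equiv.Perm.mem_support.1 h1
    · intro j hj
      have h1 := (hsupp j).1 (Equiv.Perm.mem_support.2 hj)
      obtain ⟨m, hm⟩ := h.xB y₀ hy₀ _ h1
      refine ⟨(m : ℤ), ?_⟩
      rw [zpow_natCast, hpow, hi₀]
      exact hm
  · -- support
    have h1 : B.ncard = (((prm F ψ x).support : Finset (Fin (p + e))) : Set (Fin (p + e))).ncard := by
      symm
      refine Set.ncard_congr (fun i _ => ((ψ i : F.rootSet L) : L)) ?_ ?_ ?_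
      · intro i hi
        exact (hsupp i).1 hi
      · intro i j _ _ hij
        exact ψ.injective (Subtype.ext hij)
      · intro y hy
        obtain ⟨i, hi⟩ := hlift y hy
        exact ⟨i, (hsupp i).2 (by rw [hi]; exact hy), hi⟩
    rw [Set.ncard_coe_finset] at h1
    rw [← h1, h.card]
  · rw [orderOf_injective _ hinj]
    exact h.ord
  · obtain ⟨a, ha⟩ := h.norm
    refine ⟨a, ?_⟩
    rw [← map_inv, ← map_mul, ← map_mul, ha, map_pow]
  · refine ⟨i₀, (hsupp i₀).2 (by rw [hi₀]; exact hy₀), ?_⟩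
    rw [prm_eq, hi₀]
    exact hcy₀
  · intro i hi j hj
    obtain ⟨m, hm⟩ := h.cS _ (hnsupp i hi) _ (hnsupp j hj)
    exact ⟨m, (hpow c m i j).2 hm⟩
  · intro he m hm
    apply h.e1 he m
    apply hinj
    rw [map_mul, map_mul, map_pow]
    exact hm
  · intro i j
    obtain ⟨σ, hσ⟩ := SGal_trans (L := L) h.irr (ψ i) (ψ j)
    refine ⟨prm F ψ σ, ⟨σ, rfl⟩, ?_⟩
    rw [prm_eq, ← hσ, rp_apply]
  · -- the data lie in `H`
    rw [sup_le_iff, Subgroup.zpowers_le, Subgroup.zpowers_le]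
    exact ⟨⟨x, rfl⟩, ⟨c, rfl⟩⟩
  · -- `Rel`
    have hD : Subgroup.zpowers (prm F ψ x) ⊔ Subgroup.zpowers (prm F ψ c) =
        (Subgroup.zpowers x ⊔ Subgroup.zpowers c).map (prm F ψ) := by
      rw [Subgroup.map_sup, MonoidHom.map_zpowers, MonoidHom.map_zpowers]
    rw [hD]
    refine (MP7b0bad.all_T0 k (prm F ψ).range _).2 ?_
    refine ⟨L, inferInstance, inferInstance, inferInstance, inferInstance,
      (MonoidHom.ofInjective hinj).symm, h.unr, A, h.inf.1, h.inf.2, ?_⟩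
    rw [h.dec]
    exact (occ_transfer (prm F ψ) hinj _).symm

end MP7b0bad.AnT
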