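import Pool.Agent.Work.MP_7b0bad_ag.AnT.Stmts

set_option autoImplicit false

/-!
# Item [ABez]: two elements whose values have equal powers are powers of one value
-/

namespace MP7b0bad.AnT

/-- The statement in a linearly ordered commutative group with zero. -/
theorem ABez_grp {G : Type*} [LinearOrderedCommGroupWithZero G] (x y : G) (m n : ℕ)
    (hx : x ≠ 0) (hy : y ≠ 0) (hm : 0 < m) (hn : 0 < n) (h : x ^ m = y ^ n) :
    ∃ (u w : ℤ) (i j : ℕ), 0 < i ∧ 0 < j ∧ x = (x ^ u * y ^ w) ^ i ∧ y = (x ^ u * y ^ w) ^ j := by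
  have hg : 0 < Nat.gcd m n := Nat.gcd_pos_of_pos_left n hm
  obtain ⟨m', hm'⟩ := Nat.gcd_dvd_left m n
  obtain ⟨n', hn'⟩ := Nat.gcd_dvd_right m n
  have hm0 : 0 < m' := by
    rcases Nat.eq_zero_or_pos m' with h0 | h0
    · rw [h0, mul_zero] at hm'
      omega
    · exact h0
  have hn0 : 0 < n' := by
    rcases Nat.eq_zero_or_pos n' with h0 | h0
    · rw [h0, mul_zero] at hn'
      omega
    · exact h0
  have hcop : Nat.Coprime n' m' := by
    have h1 : Nat.gcd (Nat.gcd m n * m') (Nat.gcd m n * n') = Nat.gcd m n * 1 := by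
      rw [← hm', ← hn', mul_one]
    rw [Nat.gcd_mul_left] at h1
    have h2 := Nat.eq_of_mul_eq_mul_left hg h1
    exact Nat.Coprime.symm h2
  have key : x ^ m' = y ^ n' := by
    have h1 : (x ^ m') ^ Nat.gcd m n = (y ^ n') ^ Nat.gcd m n := by
      rw [← pow_mul, ← pow_mul, mul_comm m', mul_comm n', ← hm', ← hn']
      exact h
    exact (pow_left_inj₀ zero_le zero_le hg.ne').mp h1
  have hbz : (n' : ℤ) * Nat.gcdA n' m' + (m' : ℤ) * Nat.gcdB n' m' = 1 := by
    have h1 := Nat.gcd_eq_gcd_ab n' m'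
    rw [Nat.Coprime.gcd_eq_one hcop] at h1
    push_cast at h1
    exact h1.symm
  refine ⟨Nat.gcdA n' m', Nat.gcdB n' m', n', m', hn0, hm0, ?_, ?_⟩
  · have e1 : (y ^ Nat.gcdB n' m') ^ n' = x ^ ((m' : ℤ) * Nat.gcdB n' m') := by
      rw [← zpow_natCast (y ^ Nat.gcdB n' m') n', ← zpow_mul, mul_comm, zpow_mul, zpow_natCast,
        ← key, zpow_mul, zpow_natCast]
    have e2 : (x ^ Nat.gcdA n' m') ^ n' = x ^ ((n' : ℤ) * Nat.gcdA n' m') := by
      rw [← zpow_natCast (x ^ Nat.gcdA n' m') n', ← zpow_mul, mul_comm]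
    rw [mul_pow, e1, e2, ← zpow_add₀ hx, hbz, zpow_one]
  · have e1 : (x ^ Nat.gcdA n' m') ^ m' = y ^ ((n' : ℤ) * Nat.gcdA n' m') := by
      rw [← zpow_natCast (x ^ Nat.gcdA n' m') m', ← zpow_mul, mul_comm, zpow_mul, zpow_natCast,
        key, zpow_mul, zpow_natCast]
    have e2 : (y ^ Nat.gcdB n' m') ^ m' = y ^ ((m' : ℤ) * Nat.gcdB n' m') := by
      rw [← zpow_natCast (y ^ Nat.gcdB n' m') m', ← zpow_mul, mul_comm]
    rw [mul_pow, e1, e2, ← zpow_add₀ hy, hbz, zpow_one]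

/-- Item ABez. -/
theorem prf_ABez : ABez := by
  intro L _ A a b m n ha hb hm hn h
  have hva : A.valuation a ≠ 0 := (Valuation.ne_zero_iff _).mpr ha
  have hvb : A.valuation b ≠ 0 := (Valuation.ne_zero_iff _).mpr hb
  obtain ⟨u, w, i, j, hi, hj, h1, h2⟩ :=
    ABez_grp (A.valuation a) (A.valuation b) m n hva hvb hm hn h
  have hs : A.valuation (a ^ u * b ^ w) = A.valuation a ^ u * A.valuation b ^ w := by
    rw [map_mul, map_zpow₀, map_zpow₀]
  refine ⟨a ^ u * b ^ w, i, j, mul_ne_zero (zpow_ne_zero _ ha) (zpow_ne_zero _ hb), hi, hj, ?_, ?_⟩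
  · rw [hs]
    exact h1
  · rw [hs]
    exact h2

end MP7b0bad.AnT
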