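import Pool.Agent.Work.MP_7b0bad_ag.AnT.Stmts

set_option autoImplicit false

/-!
# Abhyankar's covers: the polynomial is irreducible and separable
-/

open Polynomial

namespace MP7b0bad.AnT

/-- a general form of the monic and degree statement -/
private theorem AIrr_monic {k A : Type} [Field k] [CommRing A] [Nontrivial A] (φ : k →+* A) (x : A)
    (N D : k[X]) (hN : N.Monic) (hd : D.natDegree < N.natDegree) :
    (N.map φ - C x * D.map φ).Monic ∧ (N.map φ - C x * D.map φ).natDegree = N.natDegree := by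
  have h1 : (C x * D.map φ).natDegree < (N.map φ).natDegree := by
    rw [hN.natDegree_map φ]
    exact ((natDegree_C_mul_le _ _).trans natDegree_map_le).trans_lt hd
  have h2 : (N.map φ).Monic := hN.map φ
  refine ⟨h2.sub_of_left ?_, ?_⟩
  · exact degree_lt_degree h1
  · rw [natDegree_sub_eq_left_of_natDegree_lt h1, hN.natDegree_map φ]

private theorem AIrr_irr {k : Type} [Field k] (N D : k[X]) (hD : D ≠ 0) (hc : IsCoprime N D) :
    Irreducible (N.map (C : k →+* k[X]) - C (X : k[X]) * D.map (C : k →+* k[X])) := by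
  have h1 : Irreducible (C (-D) * X + C N : k[X][X]) :=
    irreducible_C_mul_X_add_C (neg_ne_zero.mpr hD)
      ((IsCoprime.neg_right_iff _ _).mpr hc).symm.isRelPrime
  have h2 : N.map (C : k →+* k[X]) - C (X : k[X]) * D.map (C : k →+* k[X]) =
      Bivariate.swap (R := k) (C (-D) * X + C N) := by
    rw [map_add, map_mul, Bivariate.swap_C, Bivariate.swap_C, Bivariate.swap_Y, Polynomial.map_neg]
    ring
  rw [h2, MulEquiv.irreducible_iff]
  exact h1

theorem prf_AIrr : AIrr := by
  intro p _ k _ _ e he hpe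
  have hpp : p.Prime := Fact.out
  have hp0 : 0 < p := hpp.pos
  have hN1 : (X ^ (p + e) + 1 : k[X]) = X ^ (p + e) + C 1 := by rw [C_1]
  have hNm : (X ^ (p + e) + 1 : k[X]).Monic := by
    rw [hN1]
    exact monic_X_pow_add_C 1 (by omega)
  have hNd : (X ^ (p + e) + 1 : k[X]).natDegree = p + e := by
    rw [hN1]
    exact natDegree_X_pow_add_C
  have hDm : (X ^ e : k[X]).Monic := monic_X_pow e
  have hDd : (X ^ e : k[X]).natDegree = e := natDegree_X_pow e
  have hlt : (X ^ e : k[X]).natDegree < (X ^ (p + e) + 1 : k[X]).natDegree := by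
    rw [hNd, hDd]
    omega
  have hcop : IsCoprime (X ^ (p + e) + 1 : k[X]) (X ^ e) :=
    ⟨1, - X ^ p, by rw [pow_add]; ring⟩
  have hM := AIrr_monic (algebraMap k (RatFunc k)) RatFunc.X _ _ hNm hlt
  have hM2 := AIrr_monic (C : k →+* k[X]) X _ _ hNm hlt
  have hmap : ((X ^ (p + e) + 1 : k[X]).map (C : k →+* k[X]) - C (X : k[X]) *
      (X ^ e : k[X]).map (C : k →+* k[X])).map (algebraMap k[X] (RatFunc k)) = FA k p e := by
    have hcomp : (algebraMap k[X] (RatFunc k)).comp (C : k →+* k[X]) = algebraMap k (RatFunc k) :=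
      (IsScalarTower.algebraMap_eq k k[X] (RatFunc k)).symm
    rw [FA, SnT.FF, Polynomial.map_sub, Polynomial.map_mul, Polynomial.map_C, Polynomial.map_map,
      Polynomial.map_map, hcomp, RatFunc.algebraMap_X]
  have hirr : Irreducible (FA k p e) := by
    rw [← hmap]
    exact (hM2.1.irreducible_iff_irreducible_map_fraction_map).1
      (AIrr_irr _ _ hDm.ne_zero hcop)
  refine ⟨hM.1, hM.2.trans hNd, hirr, ?_⟩
  rw [separable_iff_derivative_ne_zero hirr]
  intro h0
  have hj : ∀ j, (derivative (X ^ (p + e) + 1 : k[X])).coeff j = 0 ∧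
      (derivative (X ^ e : k[X])).coeff j = 0 := by
    intro j
    have h1 := congrArg (fun p => coeff p j) h0
    simp only [FA, SnT.FF, map_sub, derivative_C_mul, derivative_map, coeff_sub, coeff_C_mul,
      coeff_map, coeff_zero] at h1
    set a := (derivative (X ^ (p + e) + 1 : k[X])).coeff j
    set b := (derivative (X ^ e : k[X])).coeff j
    have h2 : algebraMap k[X] (RatFunc k) (C a - X * C b) = 0 := by
      rw [map_sub, map_mul, RatFunc.algebraMap_X, RatFunc.algebraMap_C, RatFunc.algebraMap_C]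
      exact h1
    have h3 : (C a - X * C b : k[X]) = 0 :=
      (map_eq_zero_iff _ (RatFunc.algebraMap_injective k)).1 h2
    have h4 := congrArg (fun p => coeff p 0) h3
    have h5 := congrArg (fun p => coeff p 1) h3
    simp [coeff_C] at h4 h5
    exact ⟨h4, h5⟩
  have h6 := (hj (e - 1)).2
  rw [derivative_X_pow, coeff_C_mul, coeff_X_pow, if_pos rfl, mul_one] at h6
  exact hpe ((CharP.cast_eq_zero_iff k p e).mp h6)

end MP7b0bad.AnT
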