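import Pool.Agent.Work.MP_7b0bad_ag.AnT.AAsm
import Pool.Agent.Work.MP_7b0bad_ag.AnT.AIrr
import Pool.Agent.Work.MP_7b0bad_ag.AnT.AUnr
import Pool.Agent.Work.MP_7b0bad_ag.AnT.AVal
import Pool.Agent.Work.MP_7b0bad_ag.AnT.ACount
import Pool.Agent.Work.MP_7b0bad_ag.AnT.ATame
import Pool.Agent.Work.MP_7b0bad_ag.AnT.ADif
import Pool.Agent.Work.MP_7b0bad_ag.AnT.ALab
import Pool.Agent.Work.MP_7b0bad_ag.AnT.AOrb
import Pool.Agent.Work.MP_7b0bad_ag.AnT.AAff
import Pool.Agent.Work.MP_7b0bad_ag.AnT.AKer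
import Pool.Agent.Work.MP_7b0bad_ag.AnT.ABez
import Pool.Agent.Work.MP_7b0bad_ag.AnT.ACh
import Pool.Agent.Work.MP_7b0bad_ag.AnT.AOrd
import Pool.Agent.Work.MP_7b0bad_ag.AnT.AGrp
import Pool.Agent.Work.MP_7b0bad_ag.AnT.AFld

set_option autoImplicit false

/-!
# Block AnT: the main statement of the block
-/

namespace MP7b0bad.AnT

theorem AbMain_of_AIrr (hIrr : AIrr) : MP7b0bad.MT.AbMain := by
  have hVal : AVal := prf_AVal
  have hCount : ACount := prf_ACount hIrr hVal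
  have hDif : ADif := prf_ADif hVal
  have hAff : AAff := prf_AAff hDif
  have hKer : AKer := prf_AKer hVal prf_ATame hAff
  exact prf_AbMain hIrr prf_AUnr hCount
    (prf_AFld hCount (prf_ALab hCount hDif) (prf_AOrb hVal hCount) hAff
      (prf_ACh hVal hCount hDif hKer prf_ABez) (prf_AOrd hDif hCount) prf_AGrp)

theorem abMain : MP7b0bad.MT.AbMain := AbMain_of_AIrr prf_AIrr

end MP7b0bad.AnT
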