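import Pool.Agent.Work.MP_7b0bad_ag.SnT.Stmts

set_option autoImplicit false

/-!
# Block AnT: Abhyankar's covers `y ^ (p + e) - x y ^ e + 1 = 0`, definitions

`cc`, `xx`, `FF`, `rp` are those of `SnT/Stmts.lean`: `cc k L c` is the constant `c` in `L`, `xx k L`
is `x` in `L`, `rp F σ` is the permutation of the roots of `F` given by `σ`.
-/

open Polynomial Pointwise

namespace MP7b0bad.AnT

/-- `Y ^ (p + e) + 1 - x Y ^ e` over `k(x)` -/
noncomputable def FA (k : Type) [Field k] (p e : ℕ) : (RatFunc k)[X] :=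
  SnT.FF k (X ^ (p + e) + 1) (X ^ e)

/-- a root `y` satisfies `y ^ (p + e) + 1 = x y ^ e` -/
theorem root_eq {k : Type} [Field k] {p e : ℕ} {L : Type} [Field L] [Algebra (RatFunc k) L] {y : L}
    (hy : y ∈ (FA k p e).rootSet L) : y ^ (p + e) + 1 = SnT.xx k L * y ^ e := by
  have h := (mem_rootSet.1 hy).2
  rw [FA, SnT.aeval_FF] at h
  simp only [eval₂_add, eval₂_pow, eval₂_X, eval₂_one] at h
  exact sub_eq_zero.1 h

/-- the roots that are not integral at `A` (big roots) -/
def Bg (k : Type) [Field k] (p e : ℕ) {L : Type} [Field L] [Algebra (RatFunc k) L]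
    (A : ValuationSubring L) : Set L := {y | y ∈ (FA k p e).rootSet L ∧ y ∉ A}

/-- the roots in the maximal ideal of `A` (small roots) -/
def Sm (k : Type) [Field k] (p e : ℕ) {L : Type} [Field L] [Algebra (RatFunc k) L]
    (A : ValuationSubring L) : Set L := {y | y ∈ (FA k p e).rootSet L ∧ y ∈ A.nonunits}

/-- labels in `ZMod p` for the big roots: the residue of `(y - y') / d` is `lab y - lab y'` -/
structure Lb (k : Type) [Field k] (p e : ℕ) {L : Type} [Field L] [Algebra (RatFunc k) L]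
    (A : ValuationSubring L) (d : L) (lab : L → ZMod p) : Prop where
  dif : ∃ y ∈ Bg k p e A, ∃ y' ∈ Bg k p e A, y' ≠ y ∧ d = y' - y
  inj : ∀ y ∈ Bg k p e A, ∀ y' ∈ Bg k p e A, lab y = lab y' → y = y'
  surj : ∀ a : ZMod p, ∃ y ∈ Bg k p e A, lab y = a
  res : ∀ y ∈ Bg k p e A, ∀ y' ∈ Bg k p e A,
    (y - y') / d - (((lab y - lab y').val : ℕ) : L) ∈ A.nonunits

end MP7b0bad.AnT
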